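import Pool.Agent.H154Z.Bip.Top

/-!
# Consistent families of coloured real names; amalgamation
-/

set_option autoImplicit false

namespace Pool.Agent.H154Z.Bip

open Set Filter Topology

/-- the Cantor space -/
abbrev Y : Type := ℕ → Bool

/-- `S` depends only on the coordinates in `A` -/
def Supp (A : Set J) (S : Set X) : Prop := ∀ z w, Ag A z w → z ∈ S → w ∈ S

theorem Supp.mono {A B : Set J} {S : Set X} (h : Supp A S) (hB : A ⊆ B) : Supp B S :=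
  fun z w h1 => h z w (h1.mono hB)

theorem Supp.pre {A B : Set J} {S : Set X} (h : Supp A S) {ρ : X → X}
    (hρ : ∀ z w, Ag B z w → Ag A (ρ z) (ρ w)) : Supp B (ρ ⁻¹' S) :=
  fun z w h1 => h _ _ (hρ z w h1)

theorem Supp.pre_eq {A : Set J} {S : Set X} (h : Supp A S) {ρ : X → X}
    (hρ : ∀ z, Ag A (ρ z) z) : ρ ⁻¹' S = S :=
  Set.ext fun z => ⟨h _ _ (hρ z), h _ _ (hρ z).symm⟩

/-- Names for reals: sequences of open sets with countable support. -/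
@[ext] structure RN where
  /-- the open sets -/
  O : ℕ → Set X
  op : ∀ k, IsOpen (O k)
  cs : ∃ A : Set J, A.Countable ∧ ∀ k, Supp A (O k)

open Classical in
/-- evaluation -/
noncomputable def RN.ev (b : RN) (z : X) : Y := fun k => decide (z ∈ b.O k)

theorem RN.ev_true (b : RN) (z : X) (k : ℕ) : b.ev z k = true ↔ z ∈ b.O k := by
  simp [RN.ev]

/-- support of a real name -/
def RN.Sp (A : Set J) (b : RN) : Prop := ∀ k, Supp A (b.O k)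

theorem RN.ev_congr {A : Set J} {b : RN} (h : b.Sp A) {z w : X} (h1 : Ag A z w) :
    b.ev z = b.ev w := by
  funext k
  rw [Bool.eq_iff_iff, b.ev_true, b.ev_true]
  exact ⟨h k _ _ h1, h k _ _ h1.symm⟩

/-- pull back of a real name -/
def RN.pb (b : RN) (ρ : X → X) (hρ : Continuous ρ) : RN :=
  ⟨fun k => ρ ⁻¹' b.O k, fun k => (b.op k).preimage hρ, by
    obtain ⟨A, h1, h2⟩ := b.cs
    obtain ⟨B, h3, h4⟩ := exists_dep' hρ h1
    exact ⟨B, h3, fun k => (h2 k).pre h4⟩⟩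

theorem RN.ev_pb (b : RN) (ρ : X → X) (hρ : Continuous ρ) (z : X) :
    (b.pb ρ hρ).ev z = b.ev (ρ z) := rfl

theorem RN.measurable_ev (b : RN) : @Measurable X Y (borel X) _ b.ev := by
  letI : MeasurableSpace X := borel X
  haveI : BorelSpace X := ⟨rfl⟩
  refine measurable_pi_lambda _ fun k => measurable_to_bool ?_
  have : (fun z => b.ev z k) ⁻¹' {true} = b.O k := Set.ext fun z => b.ev_true z k
  rw [this]
  exact (b.op k).measurableSet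

/-- entries of a condition -/
abbrev Ent : Type := RN × Set X × Bool

/-- pull back of an entry -/
def pe (ρ : X ≃ₜ X) (e : Ent) : Ent := (e.1.pb ρ ρ.continuous, ρ ⁻¹' e.2.1, e.2.2)

theorem pe_one (e : Ent) : pe 1 e = e := rfl

theorem pe_mul (π σ : X ≃ₜ X) (e : Ent) : pe (π * σ) e = pe σ (pe π e) := rfl

theorem pe_inv (π : X ≃ₜ X) (e : Ent) : pe π (pe π⁻¹ e) = e := by
  rw [← pe_mul, inv_mul_cancel, pe_one]

theorem pe_inv' (π : X ≃ₜ X) (e : Ent) : pe π⁻¹ (pe π e) = e := by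
  rw [← pe_mul, mul_inv_cancel, pe_one]

/-- support of an entry -/
def SpE (A : Set J) (e : Ent) : Prop := e.1.Sp A ∧ Supp A e.2.1

theorem SpE.mono {A B : Set J} {e : Ent} (h : SpE A e) (hB : A ⊆ B) : SpE B e :=
  ⟨fun k => (h.1 k).mono hB, h.2.mono hB⟩

theorem SpE.pe {A B : Set J} {e : Ent} (h : SpE A e) {ρ : X ≃ₜ X}
    (hρ : ∀ z w, Ag B z w → Ag A (ρ z) (ρ w)) : SpE B (pe ρ e) :=
  ⟨fun k => (h.1 k).pre hρ, h.2.pre hρ⟩

theorem SpE.pe_eq {A : Set J} {e : Ent} (h : SpE A e) {ρ : X ≃ₜ X}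
    (hρ : ∀ z, Ag A (ρ z) z) : Bip.pe ρ e = e :=
  Prod.ext (RN.ext (funext fun k => (h.1 k).pre_eq hρ)) (Prod.ext (h.2.pre_eq hρ) rfl)

variable (Γ : SimpleGraph Y)

/-- proper colourings -/
def Prp (c : Y → Bool) : Prop := ∀ u v, Γ.Adj u v → c u ≠ c v

/-- the colours of `y` and `y'` differ by `ε` in every proper colouring -/
def Rl (ε : Bool) (y y' : Y) : Prop := ∀ c, Prp Γ c → xor (c y) (c y') = ε

variable {Γ}

theorem Rl.symm {ε : Bool} {y y' : Y} (h : Rl Γ ε y y') : Rl Γ ε y' y :=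
  fun c hc => by rw [Bool.xor_comm]; exact h c hc

theorem Rl.trans {ε δ : Bool} {y y' y'' : Y} (h : Rl Γ ε y y') (h' : Rl Γ δ y' y'') :
    Rl Γ (xor ε δ) y y'' := fun c hc => by
  rw [← h c hc, ← h' c hc]
  cases c y <;> cases c y' <;> cases c y'' <;> rfl

theorem Rl.refl (y : Y) : Rl Γ false y y := fun c _ => by simp

theorem Rl.adj {y y' : Y} (h : Γ.Adj y y') : Rl Γ true y y' := fun c hc => by
  have := hc y y' h
  revert this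
  cases c y <;> cases c y' <;> simp

variable (Γ) in
/-- compatibility of two entries -/
def Cp (e e' : Ent) : Prop :=
  ∀ ε, Som (fun z => z ∈ e.2.1 ∧ z ∈ e'.2.1 ∧ Rl Γ ε (e.1.ev z) (e'.1.ev z)) →
    xor e.2.2 e'.2.2 = ε

theorem Cp.symm {e e' : Ent} (h : Cp Γ e e') : Cp Γ e' e := fun ε h1 => by
  rw [Bool.xor_comm]
  exact h ε (h1.imp (Eventually.of_forall fun z h2 => ⟨h2.2.1, h2.1, h2.2.2.symm⟩))

theorem Cp.of_pe {e e' : Ent} (ρ : X ≃ₜ X) (h : Cp Γ (pe ρ e) (pe ρ e')) : Cp Γ e e' :=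
  fun ε h1 => h ε (h1.comp ρ)

theorem Cp.pe {e e' : Ent} (ρ : X ≃ₜ X) (h : Cp Γ e e') : Cp Γ (pe ρ e) (pe ρ e') :=
  Cp.of_pe ρ⁻¹ (by rwa [pe_inv', pe_inv'])

theorem cp_self (hΓ : ∃ c, Prp Γ c) (e : Ent) : Cp Γ e e := fun ε h => by
  obtain ⟨c, hc⟩ := hΓ
  obtain ⟨z, -, -, h1⟩ := h.exists
  rw [← h1 c hc]
  simp

variable (Γ) in
/-- consistent families -/
def Cons (κ : Set Ent) : Prop := ∀ e ∈ κ, ∀ e' ∈ κ, Cp Γ e e'

variable (Γ) in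
/-- maximal consistent families with support `A` -/
structure Mx (A : Set J) (μ : Set Ent) : Prop where
  cons : Cons Γ μ
  sp : ∀ e ∈ μ, SpE A e
  max : ∀ e, SpE A e → (∀ e' ∈ μ, Cp Γ e e') → e ∈ μ

theorem exists_mx (hΓ : ∃ c, Prp Γ c) {A : Set J} {κ : Set Ent} (h : Cons Γ κ)
    (h' : ∀ e ∈ κ, SpE A e) : ∃ μ, κ ⊆ μ ∧ Mx Γ A μ := by
  have h0 : ∀ c ⊆ {μ | Cons Γ μ ∧ ∀ e ∈ μ, SpE A e}, IsChain (· ⊆ ·) c → c.Nonempty →
      ∃ ub ∈ {μ | Cons Γ μ ∧ ∀ e ∈ μ, SpE A e}, ∀ s ∈ c, s ⊆ ub := by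
    refine fun c hc hch _ => ⟨⋃₀ c, ⟨?_, ?_⟩, fun s hs => subset_sUnion_of_mem hs⟩
    · rintro a ⟨s, hs, ha⟩ b ⟨t, ht, hb⟩
      rcases hch.total hs ht with h3 | h3
      · exact (hc ht).1 a (h3 ha) b hb
      · exact (hc hs).1 a ha b (h3 hb)
    · rintro a ⟨s, hs, ha⟩
      exact (hc hs).2 a ha
  obtain ⟨μ, h1, h2⟩ := zorn_subset_nonempty _ h0 κ ⟨h, h'⟩
  refine ⟨μ, h1, h2.prop.1, h2.prop.2, fun e he he' => ?_⟩
  refine h2.le_of_ge (y := insert e μ) ⟨?_, ?_⟩ (subset_insert _ _) (mem_insert _ _)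
  · rintro a (rfl | ha) b (rfl | hb)
    · exact cp_self hΓ _
    · exact he' b hb
    · exact (he' a ha).symm
    · exact h2.prop.1 a ha b hb
  · rintro a (rfl | ha)
    · exact he
    · exact h2.prop.2 a ha

theorem supp_pc (A : Set J) (g : X) (s : Set X) : Supp A ((fun z => pc A z g) ⁻¹' s) :=
  fun z w h h1 => by
    change pc A w g ∈ s
    rw [← pc_congr h]
    exact h1

theorem Mx.predense {A : Set J} {μ : Set Ent} (h : Mx Γ A μ) {u : RN} (hu : u.Sp A) {s : Set X}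
    (ho : IsOpen s) (hs : s.Nonempty) :
    ∃ t j, IsOpen t ∧ (t ∩ s).Nonempty ∧ (u, t, j) ∈ μ := by
  obtain ⟨g, hg⟩ := hs
  let t₀ : Set X := (fun z => pc A z g) ⁻¹' s
  by_cases h1 : ∃ e ∈ μ, ∃ ε, Som fun z => z ∈ t₀ ∧ z ∈ e.2.1 ∧ Rl Γ ε (u.ev z) (e.1.ev z)
  · obtain ⟨e, he, ε, s', h1, h2, h3⟩ := h1
    obtain ⟨g', h4, h5⟩ := exists_of_res h1 h2 (ku A h3)
    let t : Set X := (fun z => pc A z g') ⁻¹' s'
    have ht : IsOpen t := h1.preimage (continuous_pc_left A g')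
    have h6 : ∀ᶠ z in residual X, z ∈ t →
        z ∈ t₀ ∧ z ∈ e.2.1 ∧ Rl Γ ε (u.ev z) (e.1.ev z) := by
      filter_upwards [h5] with z hz hz'
      obtain ⟨h7, h8, h9⟩ := hz hz'
      refine ⟨supp_pc A g s _ _ (ag_pc _ _ _) h7, (h.sp e he).2 _ _ (ag_pc _ _ _) h8, ?_⟩
      rwa [RN.ev_congr hu (ag_pc A z g'), RN.ev_congr (h.sp e he).1 (ag_pc A z g')] at h9
    refine ⟨t, xor e.2.2 ε, ht, ?_, h.max _ ⟨hu, supp_pc A g' s'⟩ fun e' he' δ h7 => ?_⟩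
    · obtain ⟨z, h7, h8⟩ := exists_of_res ht ⟨g', by
        change pc A g' g' ∈ s'
        rwa [pc_self]⟩ h6
      exact ⟨pc A z g, supp_pc A g' s' _ _ (ag_pc _ _ _).symm h7, (h8 h7).1⟩
    · have h8 := h.cons e he e' he' (xor ε δ) (h7.imp (by
        filter_upwards [h6] with z hz hz'
        exact ⟨(hz hz'.1).2.1, hz'.2.1, (hz hz'.1).2.2.symm.trans hz'.2.2⟩))
      change xor (xor e.2.2 ε) e'.2.2 = δ
      revert h8
      cases e.2.2 <;> cases e'.2.2 <;> cases ε <;> cases δ <;> simp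
  · refine ⟨t₀, false, ho.preimage (continuous_pc_left A g), ⟨g, by
      change pc A g g ∈ s
      rwa [pc_self], hg⟩, h.max _ ⟨hu, supp_pc A g s⟩ fun e' he' δ h7 => ?_⟩
    exact absurd ⟨e', he', δ, h7⟩ h1

theorem Mx.amalg {A B₁ B₂ : Set J} {μ : Set Ent} (h : Mx Γ A μ) (hB : B₁ ∩ B₂ ⊆ A) {e₁ e₂ : Ent}
    (h₁ : SpE B₁ e₁) (h₂ : SpE B₂ e₂) (k₁ : ∀ e ∈ μ, Cp Γ e₁ e) (k₂ : ∀ e ∈ μ, Cp Γ e₂ e) :
    Cp Γ e₁ e₂ := by
  rintro ε ⟨s, h1, h2, h3⟩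
  obtain ⟨g, h4, h5⟩ := exists_of_res h1 h2 (ku B₁ h3)
  let u : RN := e₂.1.pb (fun z => pc B₁ z g) (continuous_pc_left B₁ g)
  have hu : u.Sp A := fun k => (h₂.1 k).pre fun z w hzw a ha => by
    by_cases h6 : a ∈ B₁
    · rw [pc_pos _ _ h6, pc_pos _ _ h6, hzw a (hB ⟨h6, ha⟩)]
    · rw [pc_neg _ _ h6, pc_neg _ _ h6]
  obtain ⟨t, j, h6, h7, h8⟩ := h.predense hu (h1.inter (h1.preimage (continuous_pc_left B₁ g)))
    ⟨g, h4, by
      change pc B₁ g g ∈ s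
      rwa [pc_self]⟩
  have h9 : ∀ᶠ z in residual X, z ∈ t ∩ (s ∩ (fun z => pc B₁ z g) ⁻¹' s) →
      z ∈ t ∧ z ∈ e₁.2.1 ∧ z ∈ e₂.2.1 ∧ Rl Γ ε (e₁.1.ev z) (e₂.1.ev z) ∧
        Rl Γ ε (e₁.1.ev z) (u.ev z) := by
    filter_upwards [h3, h5] with z hz hz' hz''
    obtain ⟨a1, a2, a3⟩ := hz hz''.2.1
    obtain ⟨-, -, a4⟩ := hz' hz''.2.2
    rw [RN.ev_congr h₁.1 (ag_pc B₁ z g)] at a4
    exact ⟨hz''.1, a1, a2, a3, a4⟩
  have ho := h6.inter (h1.inter (h1.preimage (continuous_pc_left B₁ g)))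
  have a1 := k₁ _ h8 ε ⟨_, ho, h7, by
    filter_upwards [h9] with z hz hz'
    exact ⟨(hz hz').2.1, (hz hz').1, (hz hz').2.2.2.2⟩⟩
  have a2 := k₂ _ h8 (xor ε ε) ⟨_, ho, h7, by
    filter_upwards [h9] with z hz hz'
    exact ⟨(hz hz').2.2.1, (hz hz').1, (hz hz').2.2.2.1.symm.trans (hz hz').2.2.2.2⟩⟩
  revert a1 a2
  change xor e₁.2.2 j = ε → xor e₂.2.2 j = xor ε ε → _
  cases e₁.2.2 <;> cases e₂.2.2 <;> cases ε <;> cases j <;> simp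

/-- Two copies over `A` that become independent after a change of coordinates are compatible. -/
theorem Mx.compat {A B B₁ B₂ : Set J} {μ κ : Set Ent} (h : Mx Γ A μ) (hκ : Cons Γ κ) (hμ : μ ⊆ κ)
    (hs : ∀ e ∈ κ, SpE B e) (hB : B₁ ∩ B₂ ⊆ A) {ρ₁ ρ₂ θ : X ≃ₜ X}
    (a₁ : ∀ z, Ag A (ρ₁ (θ z)) z) (a₂ : ∀ z, Ag A (ρ₂ (θ z)) z)
    (d₁ : ∀ z w, Ag B₁ z w → Ag B (ρ₁ (θ z)) (ρ₁ (θ w)))
    (d₂ : ∀ z w, Ag B₂ z w → Ag B (ρ₂ (θ z)) (ρ₂ (θ w)))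
    {e₁ e₂ : Ent} (h₁ : e₁ ∈ κ) (h₂ : e₂ ∈ κ) : Cp Γ (pe ρ₁ e₁) (pe ρ₂ e₂) := by
  refine Cp.of_pe θ ?_
  rw [← pe_mul, ← pe_mul]
  refine h.amalg hB ((hs _ h₁).pe d₁) ((hs _ h₂).pe d₂) (fun e he => ?_) (fun e he => ?_)
  · have := (hκ _ h₁ e (hμ he)).pe (ρ₁ * θ)
    rwa [(h.sp e he).pe_eq (ρ := ρ₁ * θ) a₁] at this
  · have := (hκ _ h₂ e (hμ he)).pe (ρ₂ * θ)
    rwa [(h.sp e he).pe_eq (ρ := ρ₂ * θ) a₂] at this

end Pool.Agent.H154Z.Bip
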