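import Pool.Agent.H164Z.BsptDefs

/-!
# Dependent choice, reals, colourings and ultrafilters in a model of set theory

A structure is a type `M` with a binary relation `E` (`E x y` means that `x` is an element
of `y`).
-/

set_option autoImplicit false

namespace Pool.Agent.H154Z.Bip

open Pool.Agent.H164Z.Bspt

universe u

variable {M : Type u} (E : M → M → Prop)

/-- `x` is the von Neumann numeral `n`. -/
def IsNum : ℕ → M → Prop
  | 0, x => ∀ t, ¬ E t x
  | n + 1, x => ∃ y, IsNum n y ∧ IsSucc E x y

/-- `f` is a function from `a` to `b`. -/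
def IsFun (f a b : M) : Prop :=
  (∀ p, E p f → ∃ x y, E x a ∧ E y b ∧ IsOP E p x y) ∧ ∀ x, E x a → ∃! y, Rel E f x y

/-- The axiom of dependent choices: if every element of the nonempty set `a` has an `R`-successor
in `a`, then there is a function `s` from the set of natural numbers to `a` such that
`(s n, s (n + 1)) ∈ R` for all `n`. -/
def DC : Prop :=
  ∀ a R, (∃ x, E x a) → (∀ x, E x a → ∃ y, E y a ∧ Rel E R x y) →
    ∃ w s, (∀ n, E n w ↔ IsNat E n) ∧ IsFun E s w a ∧
      ∀ n m x y, E n w → IsSucc E m n → Rel E s n x → Rel E s m y → Rel E R x y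

/-- `x` is a real of the structure: a set of natural numbers. -/
def IsReal (x : M) : Prop := ∀ t, E t x → IsNat E t

/-- `x` is the real with characteristic function `c`. -/
def Codes (x : M) (c : ℕ → Bool) : Prop :=
  IsReal E x ∧ ∀ n t, IsNum E n t → (E t x ↔ c n = true)

/-- The points of `X` are coded as reals by `code`. The structure contains a function `f` from its
set of reals to `2` that gives different values to the codes of points adjacent in `Γ`. -/
def HasColouring {X : Type} (Γ : SimpleGraph X) (code : X → ℕ → Bool) : Prop :=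
  ∃ R two f, (∀ x, E x R ↔ IsReal E x) ∧ IsNum E 2 two ∧ IsFun E f R two ∧
    ∀ x y u v i, Codes E x (code u) → Codes E y (code v) → Γ.Adj u v →
      Rel E f x i → ¬ Rel E f y i

/-- `U` is a nonprincipal ultrafilter on the natural numbers in the structure. -/
structure IsFreeUltrafilter (U : M) : Prop where
  real : ∀ x, E x U → IsReal E x
  free : ∀ x, E x U → ¬ IsFin E x
  up : ∀ x y, E x U → IsReal E y → Sub E x y → E y U
  inter : ∀ x y z, E x U → E y U → (∀ t, E t z ↔ E t x ∧ E t y) → E z U
  ultra : ∀ x y, IsReal E x → (∀ t, E t y ↔ IsNat E t ∧ ¬ E t x) → E x U ∨ E y U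

/-- The membership relation between the elements of a set. -/
def memOf (A : ZFSet.{u}) (x y : {x // x ∈ A}) : Prop := x.1 ∈ y.1

end Pool.Agent.H154Z.Bip
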