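import Pool.Agent.H154Z.Bip.Defs

/-!
# Transfer along isomorphisms and the transitive collapse
-/

set_option autoImplicit false

namespace Pool.Agent.H154Z.Bip

open Pool.Agent.H164Z.Bspt

universe u v

section
variable {M : Type u} {N : Type v} {E : N → N → Prop} {E' : M → M → Prop} {f : M → N}
  (hf : Function.Bijective f) (hE : ∀ x y, E' x y ↔ E (f x) (f y))
include hf hE

theorem sub_tr (a b : M) : Sub E' a b ↔ Sub E (f a) (f b) := by
  simp only [H164Z.Bspt.Sub, hf.2.forall, hE]

theorem succ_tr (a b : M) : IsSucc E' a b ↔ IsSucc E (f a) (f b) := by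
  simp only [IsSucc, hf.2.forall, hE, hf.1.eq_iff]

theorem ind_tr (a : M) : IsInductive E' a ↔ IsInductive E (f a) := by
  simp only [IsInductive, hf.2.forall, hf.2.exists, hE, succ_tr hf hE]

theorem nat_tr (a : M) : IsNat E' a ↔ IsNat E (f a) := by
  simp only [IsNat, hf.2.forall, hE, ind_tr hf hE]

theorem op_tr (p a b : M) : IsOP E' p a b ↔ IsOP E (f p) (f a) (f b) := by
  simp only [IsOP, hf.2.forall, hE, hf.1.eq_iff]

theorem rel_tr (p a b : M) : Rel E' p a b ↔ Rel E (f p) (f a) (f b) := by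
  simp only [H164Z.Bspt.Rel, hf.2.exists, hE, op_tr hf hE]

theorem bij_tr (p a b : M) : IsBij E' p a b ↔ IsBij E (f p) (f a) (f b) := by
  simp only [IsBij, ExistsUnique, hf.2.forall, hf.2.exists, hE, op_tr hf hE, rel_tr hf hE,
    hf.1.eq_iff]

theorem fin_tr (a : M) : IsFin E' a ↔ IsFin E (f a) := by
  simp only [IsFin, hf.2.exists, nat_tr hf hE, bij_tr hf hE]

theorem num_tr (n : ℕ) : ∀ a : M, IsNum E' n a ↔ IsNum E n (f a) := by
  induction n with
  | zero => intro a; simp only [IsNum, hf.2.forall, hE]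
  | succ n ih => intro a; simp only [IsNum, hf.2.exists, ih, succ_tr hf hE]

theorem fun_tr (p a b : M) : IsFun E' p a b ↔ IsFun E (f p) (f a) (f b) := by
  simp only [IsFun, ExistsUnique, hf.2.forall, hf.2.exists, hE, op_tr hf hE, rel_tr hf hE,
    hf.1.eq_iff]

theorem real_tr (a : M) : IsReal E' a ↔ IsReal E (f a) := by
  simp only [IsReal, hf.2.forall, hE, nat_tr hf hE]

theorem codes_tr (a : M) (c : ℕ → Bool) : Codes E' a c ↔ Codes E (f a) c := by
  simp only [Codes, hf.2.forall, hE, real_tr hf hE, num_tr hf hE]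

theorem dc_tr : DC E' ↔ DC E := by
  simp only [DC, hf.2.forall, hf.2.exists, hE, rel_tr hf hE, nat_tr hf hE, fun_tr hf hE,
    succ_tr hf hE]

theorem col_tr {X : Type} (Γ : SimpleGraph X) (code : X → ℕ → Bool) :
    HasColouring E' Γ code ↔ HasColouring E Γ code := by
  simp only [HasColouring, hf.2.forall, hf.2.exists, hE, rel_tr hf hE, real_tr hf hE,
    fun_tr hf hE, num_tr hf hE, codes_tr hf hE]

theorem ultra_tr (U : M) (h : IsFreeUltrafilter E' U) : IsFreeUltrafilter E (f U) where
  real := by simpa only [hf.2.forall, hE, real_tr hf hE] using h.real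
  free := by simpa only [hf.2.forall, hE, fin_tr hf hE] using h.free
  up := by simpa only [hf.2.forall, hE, real_tr hf hE, sub_tr hf hE] using h.up
  inter := by simpa only [hf.2.forall, hE] using h.inter
  ultra := by simpa only [hf.2.forall, hE, real_tr hf hE, nat_tr hf hE] using h.ultra

theorem sat_tr (φ : Fml) : ∀ v : ℕ → M, Sat E' φ v ↔ Sat E φ (fun i => f (v i)) := by
  induction φ with
  | mem i j => exact fun v => hE _ _
  | eq i j => exact fun v => hf.1.eq_iff.symm
  | neg φ ih => exact fun v => not_congr (ih v)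
  | and φ ψ ih ih' => exact fun v => and_congr (ih v) (ih' v)
  | all φ ih =>
    intro v
    simp only [Sat, hf.2.forall, ih]
    refine forall_congr' fun x => ?_
    have : (fun i => f (cons x v i)) = cons (f x) fun i => f (v i) := by
      funext i; cases i <;> rfl
    rw [this]

theorem zf_tr (h : IsZF E) : IsZF E' := by
  have e1 : ∀ (x : M) (v : ℕ → M), (fun i => f (cons x v i)) = cons (f x) fun i => f (v i) :=
    fun x v => by funext i; cases i <;> rfl
  refine ⟨?_, ?_, ?_, ?_, ?_, ?_, fun φ v A => ?_, fun φ v A => ?_⟩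
  · simpa only [hf.2.forall, hE, hf.1.eq_iff] using h.ext
  · simpa only [hf.2.forall, hf.2.exists, hE] using h.found
  · simpa only [hf.2.forall, hf.2.exists, hE, hf.1.eq_iff] using h.pair
  · simpa only [hf.2.forall, hf.2.exists, hE] using h.union
  · simpa only [hf.2.forall, hf.2.exists, hE, sub_tr hf hE] using h.power
  · simpa only [hf.2.exists, ind_tr hf hE] using h.inf
  · simpa only [hf.2.forall, hf.2.exists, hE, sat_tr hf hE, e1] using
      h.sep φ (fun i => f (v i)) (f A)
  · simpa only [ExistsUnique, hf.2.forall, hf.2.exists, hE, sat_tr hf hE, e1, hf.1.eq_iff] using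
      h.repl φ (fun i => f (v i)) (f A)

end

/-- The transitive collapse. -/
theorem exists_collapse {N : Type} {E : N → N → Prop} (hw : WellFounded E)
    (hx : ∀ x y, (∀ z, E z x ↔ E z y) → x = y) :
    ∃ A : ZFSet.{0}, A.IsTransitive ∧ ∃ f : {x // x ∈ A} → N, Function.Bijective f ∧
      ∀ x y, memOf A x y ↔ E (f x) (f y) := by
  let π : N → ZFSet.{0} := hw.fix fun a ih => ZFSet.range fun b : {b // E b a} => ih b.1 b.2
  have h1 : ∀ a x, x ∈ π a ↔ ∃ b, E b a ∧ π b = x := fun a x => by
    have : π a = ZFSet.range fun b : {b // E b a} => π b.1 := hw.fix_eq _ a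
    rw [this, ZFSet.mem_range]
    exact ⟨fun ⟨b, hb⟩ => ⟨b.1, b.2, hb⟩, fun ⟨b, h2, h3⟩ => ⟨⟨b, h2⟩, h3⟩⟩
  have h2 : ∀ a b, π a = π b → a = b := fun a => by
    induction a using hw.induction with
    | _ a ih =>
      intro b hab
      refine hx a b fun z => ⟨fun hz => ?_, fun hz => ?_⟩
      · obtain ⟨c, h3, h4⟩ := (h1 b _).1 (hab ▸ (h1 a _).2 ⟨z, hz, rfl⟩)
        rwa [ih z hz c h4.symm]
      · obtain ⟨c, h3, h4⟩ := (h1 a _).1 (hab.symm ▸ (h1 b _).2 ⟨z, hz, rfl⟩)
        rwa [← ih c h3 z h4]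
  let g : N → {x // x ∈ ZFSet.range π} := fun a => ⟨π a, ZFSet.mem_range_self a⟩
  have hg : Function.Bijective g := ⟨fun a b h => h2 a b (congrArg Subtype.val h),
    fun x => by
      obtain ⟨a, ha⟩ := ZFSet.mem_range.1 x.2
      exact ⟨a, Subtype.ext ha⟩⟩
  refine ⟨ZFSet.range π, fun y hy z hz => ?_, (Equiv.ofBijective g hg).symm,
    (Equiv.ofBijective g hg).symm.bijective, fun x y => ?_⟩
  · obtain ⟨a, rfl⟩ := ZFSet.mem_range.1 hy
    obtain ⟨b, -, rfl⟩ := (h1 a z).1 hz
    exact ZFSet.mem_range_self b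
  · obtain ⟨a, rfl⟩ := (Equiv.ofBijective g hg).surjective x
    obtain ⟨b, rfl⟩ := (Equiv.ofBijective g hg).surjective y
    rw [Equiv.symm_apply_apply, Equiv.symm_apply_apply]
    change π a ∈ π b ↔ _
    rw [h1]
    exact ⟨fun ⟨c, h3, h4⟩ => h2 c a h4 ▸ h3, fun h => ⟨a, h, rfl⟩⟩

theorem colorable_of_no_odd_cycle {X : Type} {Γ : SimpleGraph X}
    (h : ∀ v (w : Γ.Walk v v), w.IsCycle → Even w.length) : Γ.Colorable 2 := by
  refine SimpleGraph.two_colorable_iff_forall_loop_even.2 ?_
  have key : ∀ n, ∀ u (w : Γ.Walk u u), w.length = n → Even n := by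
    intro n
    induction n using Nat.strong_induction_on with
    | _ n ih =>
      intro u w hw
      cases w with
      | nil => exact hw ▸ ⟨0, rfl⟩
      | cons ha p =>
        by_cases hp : p.IsPath
        · by_cases h3 : 3 ≤ n
          · refine hw ▸ h u _ (SimpleGraph.Walk.isCycle_iff_isPath_tail_and_le_length.2
              ⟨by simpa using hp, hw ▸ h3⟩)
          · have h4 : p.length ≠ 0 := fun h4 => ha.ne (SimpleGraph.Walk.eq_of_length_eq_zero h4).symm
            rw [SimpleGraph.Walk.length_cons] at hw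
            exact ⟨1, by omega⟩
        · rw [SimpleGraph.Walk.isPath_iff_isSubwalk_imp_nil] at hp
          push Not at hp
          obtain ⟨v, q, ⟨r, s, rfl⟩, h4⟩ := hp
          have h5 : q.length ≠ 0 := fun h5 => h4 (SimpleGraph.Walk.length_eq_zero_iff.1 h5)
          simp only [SimpleGraph.Walk.length_cons, SimpleGraph.Walk.length_append] at hw
          obtain ⟨a, h6⟩ := ih q.length (by omega) v q rfl
          obtain ⟨b, h7⟩ := ih (r.length + s.length + 1) (by omega) u
            (.cons ha (r.append s)) (by simp)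
          exact ⟨a + b, by omega⟩
  exact fun u w => key _ u w rfl

end Pool.Agent.H154Z.Bip
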