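import Pool.Agent.H154Z.Bip.Main
import Pool.Agent.H154Z.Bip.Transfer

/-!
# The transitive model, for graphs on a Polish space
-/

set_option autoImplicit false

namespace Pool.Agent.H154Z.Bip

open Set Pool.Agent.H164Z.Bspt

/-- The image of a graph under an injection. -/
def imG {Z : Type} (Γ : SimpleGraph Z) (code : Z → Y) (h : Function.Injective code) :
    SimpleGraph Y where
  Adj y y' := ∃ u v, Γ.Adj u v ∧ code u = y ∧ code v = y'
  symm := ⟨fun _ _ ⟨u, v, h1, h2, h3⟩ => ⟨v, u, h1.symm, h3, h2⟩⟩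
  loopless := ⟨fun _ ⟨_, _, h1, h2, h3⟩ => h1.ne (h (h2.trans h3.symm))⟩

theorem imG_borel {Z : Type} [TopologicalSpace Z] [PolishSpace Z] {Γ : SimpleGraph Z}
    (hB : @MeasurableSet _ (borel (Z × Z)) {p | Γ.Adj p.1 p.2}) {code : Z → Y}
    (h : Function.Injective code) (hm : @Measurable _ _ (borel Z) (borel Y) code) :
    MeasurableSet {p : Y × Y | (imG Γ code h).Adj p.1 p.2} := by
  borelize Z
  rw [← BorelSpace.measurable_eq] at hB
  rw [← BorelSpace.measurable_eq (α := Y)] at hm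
  have h1 := hB.image_of_measurable_injOn (hm.prodMap hm) (h.prodMap h).injOn
  convert h1 using 1
  ext p
  exact ⟨fun ⟨u, v, h2, h3, h4⟩ => ⟨(u, v), h2, Prod.ext h3 h4⟩,
    fun ⟨q, h2, h3⟩ => ⟨q.1, q.2, h2, congrArg Prod.fst h3, congrArg Prod.snd h3⟩⟩

theorem imG_prp {Z : Type} {Γ : SimpleGraph Z}
    (hb : ∀ v (w : Γ.Walk v v), w.IsCycle → Even w.length) {code : Z → Y}
    (h : Function.Injective code) : ∃ c, Prp (imG Γ code h) c := by
  obtain ⟨c⟩ := colorable_of_no_odd_cycle hb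
  refine ⟨Function.extend code (fun u => finTwoEquiv (c u)) fun _ => false, ?_⟩
  rintro _ _ ⟨u, v, h1, rfl, rfl⟩
  rw [h.extend_apply, h.extend_apply]
  exact fun h2 => c.valid h1 (finTwoEquiv.injective h2)

theorem final {Z : Type} [TopologicalSpace Z] [PolishSpace Z] (Γ : SimpleGraph Z)
    (hB : @MeasurableSet _ (borel (Z × Z)) {p | Γ.Adj p.1 p.2})
    (hb : ∀ v (w : Γ.Walk v v), w.IsCycle → Even w.length) (code : Z → ℕ → Bool)
    (h : Function.Injective code) (hm : @Measurable _ _ (borel Z) (borel (ℕ → Bool)) code)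
    (c : ℕ → Bool) :
    ∃ A : ZFSet.{0}, A.IsTransitive ∧ IsZF (memOf A) ∧ DC (memOf A) ∧
      (∃ x, Codes (memOf A) x c) ∧ HasColouring (memOf A) Γ code ∧
      ¬ ∃ U, IsFreeUltrafilter (memOf A) U := by
  obtain ⟨N, E, -, h1, h2, h3, ⟨x, h4⟩, ⟨R, two, g, h5, h6, h7, h8⟩, h9⟩ :=
    main (imG_borel hB h hm) (imG_prp hb h) c
  obtain ⟨A, h10, f, hf, hE⟩ := exists_collapse h2 h1.ext
  obtain ⟨x, rfl⟩ := hf.2 x
  exact ⟨A, h10, zf_tr hf hE h1, (dc_tr hf hE).2 h3, ⟨x, (codes_tr hf hE x c).2 h4⟩,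
    (col_tr hf hE Γ code).2 ⟨R, two, g, h5, h6, h7, fun x y u v i a1 a2 a3 =>
      h8 x y _ _ i a1 a2 ⟨u, v, a3, rfl, rfl⟩⟩,
    fun ⟨U, hU⟩ => h9 ⟨_, ultra_tr hf hE U hU⟩⟩

end Pool.Agent.H154Z.Bip
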