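import Pool.Agent.H982Z.Sym.Atoms
import Pool.Agent.H154Z.Bip.Defs

/-!
# Symmetric models with prescribed names, and dependent choice
-/

set_option autoImplicit false

namespace Pool.Agent.H154Z.Bip

open Pool.Agent.H164Z.Bspt Pool.Agent.H982Z.Sym

variable {P : Type} [Preorder P]
variable {Γ : Type} [Group Γ] [MulAction Γ P] [CovariantClass Γ P (· • ·) (· ≤ ·)]

/-- unordered pair -/
def upN (x y : Nm P) : Nm P := ⟨Bool, fun t => bif t then x else y, fun _ => ⊤⟩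

/-- ordered pair -/
def opN (x y : Nm P) : Nm P := upN (upN x x) (upN x y)

/-- range of a sequence -/
def sqN (z : ℕ → Nm P) : Nm P := ⟨ℕ, z, fun _ => ⊤⟩

theorem upN_inj {x y x' y' : Nm P} (h : upN x y = upN x' y') : x = x' ∧ y = y' := by
  have h1 := (Nm.mk.inj h).2.1
  have h2 := eq_of_heq h1
  exact ⟨congrFun h2 true, congrFun h2 false⟩

theorem opN_inj {x y x' y' : Nm P} (h : opN x y = opN x' y') : x = x' ∧ y = y' :=
  upN_inj (upN_inj h).2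

theorem sqN_inj {z z' : ℕ → Nm P} (h : sqN z = sqN z') : z = z' :=
  eq_of_heq (Nm.mk.inj h).2.1

theorem feq_upN {x y x' y' : Nm P} {p : P} (h : feq x x' p) (h' : feq y y' p) :
    feq (upN x y) (upN x' y') p := by
  refine ⟨fun i q hq _ => ⟨q, le_rfl, i, trivial, ?_⟩, fun i q hq _ => ⟨q, le_rfl, i, trivial, ?_⟩⟩
  · cases i
    · exact h'.mono hq
    · exact h.mono hq
  · cases i
    · exact h'.mono hq
    · exact h.mono hq

theorem feq_opN {x y x' y' : Nm P} {p : P} (h : feq x x' p) (h' : feq y y' p) :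
    feq (opN x y) (opN x' y') p := feq_upN (feq_upN h h) (feq_upN h h')

theorem tw_top (π : Γ) : tw π (⊤ : LowerSet P) = ⊤ := by
  ext q
  exact iff_of_true trivial trivial

theorem act_upN (π : Γ) (x y : Nm P) : act π (upN x y) = upN (act π x) (act π y) := by
  simp only [upN, act, tw_top]
  congr 1
  funext t
  cases t <;> rfl

theorem act_opN (π : Γ) (x y : Nm P) : act π (opN x y) = opN (act π x) (act π y) := by
  simp only [opN, act_upN]

variable {F : NF Γ}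

theorem hs_upN {x y : Nm P} (hx : HS F x) (hy : HS F y) : HS F (upN x y) := by
  obtain ⟨H, hH, h1⟩ := hx.symm
  obtain ⟨K, hK, h2⟩ := hy.symm
  obtain ⟨L, hL, h3, h4⟩ := F.dir H hH K hK
  refine ⟨⟨L, hL, fun π hπ p => ?_⟩, fun t => by cases t <;> assumption⟩
  change feq (act π (upN x y)) (upN x y) p
  rw [act_upN]
  exact feq_upN (h1 π (h3 hπ) p) (h2 π (h4 hπ) p)

theorem hs_opN {x y : Nm P} (hx : HS F x) (hy : HS F y) : HS F (opN x y) :=
  hs_upN (hs_upN hx hx) (hs_upN hx hy)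

theorem hs_of_opN {x y : Nm P} (h : HS F (opN x y)) : HS F x :=
  (h.child (true : Bool)).child (true : Bool)

variable (F) in
/-- The filter is countably complete. -/
def Sigma : Prop := ∀ H : ℕ → Subgroup Γ, (∀ n, H n ∈ F.S) → ∃ K ∈ F.S, ∀ n, K ≤ H n

theorem Sigma.fixes (hσ : Sigma F) {z : ℕ → Nm P} (hz : ∀ n, HS F (z n)) :
    ∃ K ∈ F.S, ∀ n, Fixes K (z n) := by
  choose H h1 h2 using fun n => (hz n).symm
  obtain ⟨K, hK, h3⟩ := hσ H h1
  exact ⟨K, hK, fun n => (h2 n).mono (h3 n)⟩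

theorem hs_sqN (hσ : Sigma F) {z : ℕ → Nm P} (hz : ∀ n, HS F (z n)) : HS F (sqN z) := by
  obtain ⟨K, hK, h⟩ := hσ.fixes hz
  exact ⟨⟨K, hK, fun π hπ p => ⟨fun i q _ _ => ⟨q, le_rfl, i, trivial, h i π hπ q⟩,
    fun i q _ _ => ⟨q, le_rfl, i, trivial, h i π hπ q⟩⟩⟩, hz⟩

/-- `y` is forced to be an `R`-successor of `x` in `a`. -/
def Sc (a R x y : Nm P) (q : P) : Prop := fmem y a q ∧ fmem (opN x y) R q

theorem Sc.mono {a R x y : Nm P} {p q : P} (h : Sc a R x y p) (hq : q ≤ p) : Sc a R x y q :=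
  ⟨h.1.mono hq, h.2.mono hq⟩

theorem Sc.sm {a R x y : Nm P} {p : P} {H : Subgroup Γ} (h : Sc a R x y p) (ha : Fixes H a)
    (hR : Fixes H R) (hx : Fixes H x) (hy : Fixes H y) {π : Γ} (hπ : π ∈ H) :
    Sc a R x y (π • p) := by
  refine ⟨((h.1.act π).left (hy π hπ _)).right (ha π hπ _), ?_⟩
  have h1 := h.2.act π
  rw [act_opN] at h1
  exact (h1.left (feq_opN (hx π hπ _) (hy π hπ _))).right (hR π hπ _)

/-- The sequence of least successors. -/
def Tq (a R : Nm P) (z : ℕ → Nm P) : ℕ → ℕ → P → Prop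
  | 0, m, _ => m = 0
  | n + 1, m', q => ∃ m, Tq a R z n m q ∧ Sc a R (z m) (z m') q ∧
      ∀ k < m', ∀ q' ≤ q, ¬ Sc a R (z m) (z k) q'

theorem Tq.mono {a R : Nm P} {z : ℕ → Nm P} {n : ℕ} : ∀ {m : ℕ} {p q : P}, Tq a R z n m p →
    q ≤ p → Tq a R z n m q := by
  induction n with
  | zero => exact fun h _ => h
  | succ n ih =>
    rintro m' p q ⟨m, h1, h2, h3⟩ hq
    exact ⟨m, ih h1 hq, h2.mono hq, fun k hk q' hq' => h3 k hk q' (hq'.trans hq)⟩

theorem Tq.sm {a R : Nm P} {z : ℕ → Nm P} {H : Subgroup Γ} (ha : Fixes H a)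
    (hR : Fixes H R) (hz : ∀ m, Fixes H (z m)) {π : Γ} (hπ : π ∈ H) {n : ℕ} :
    ∀ {m : ℕ} {p : P}, Tq a R z n m p → Tq a R z n m (π • p) := by
  induction n with
  | zero => exact fun h => h
  | succ n ih =>
    rintro m' p ⟨m, h1, h2, h3⟩
    refine ⟨m, ih h1, h2.sm ha hR (hz _) (hz _) hπ, fun k hk q' hq' h4 => ?_⟩
    exact h3 k hk _ ((le_sm π).1 hq') (h4.sm ha hR (hz _) (hz _) (H.inv_mem hπ))

/-- The name of the sequence of least successors. -/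
def gamN (a R : Nm P) (z : ℕ → Nm P) : Nm P :=
  ⟨ℕ × ℕ, fun i => opN (natN i.1) (z i.2),
    fun i => ⟨{q | Tq a R z i.1 i.2 q}, fun _ _ h h' => Tq.mono h' h⟩⟩

theorem hs_gamN (hσ : Sigma F) {a R : Nm P} {z : ℕ → Nm P} (ha : HS F a) (hR : HS F R)
    (hz : ∀ n, HS F (z n)) : HS F (gamN a R z) := by
  obtain ⟨K, hK, h⟩ := hσ.fixes (z := cons a (cons R z)) (fun n => by
    match n with
    | 0 => exact ha
    | 1 => exact hR
    | n + 2 => exact hz n)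
  have h0 : Fixes K a := h 0
  have h1 : Fixes K R := h 1
  have h2 : ∀ n, Fixes K (z n) := fun n => h (n + 2)
  have h3 : ∀ π ∈ K, ∀ (i : ℕ × ℕ) q,
      feq (act π (opN (natN i.1) (z i.2))) (opN (natN i.1) (z i.2)) q := fun π hπ i q => by
    rw [act_opN, (chk_natN _).act π]
    exact feq_opN (feq.refl _ _) (h2 _ π hπ q)
  refine ⟨⟨K, hK, fun π hπ p => ⟨fun i q _ hi => ⟨q, le_rfl, i, ?_, h3 π hπ i q⟩,
    fun i q _ hi => ⟨q, le_rfl, i, ?_, h3 π hπ i q⟩⟩⟩,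
    fun i => hs_opN ((chk_natN _).hs F) (hz _)⟩
  · have h4 := Tq.sm h0 h1 h2 hπ (show Tq a R z i.1 i.2 (π⁻¹ • q) from hi)
    rw [smul_inv_smul] at h4
    exact h4
  · exact Tq.sm h0 h1 h2 (K.inv_mem hπ) (show Tq a R z i.1 i.2 q from hi)

theorem exists_mod' (F : NF Γ) (b : ℕ → Nm P) (hb : ∀ n, HS F (b n)) (p₀ : P)
    {J : Type} [Countable J] (X : J → List (Nm P) → Nm P → P → Prop)
    (hX : ∀ j l p, (∀ x ∈ l, HS F x) → ∃ x q, HS F x ∧ q ≤ p ∧ X j l x q) :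
    ∃ M : Mod F b, p₀ ∈ M.G ∧
      ∀ j (l : List ℕ), ∃ k, ∃ q ∈ M.G, X j (l.map M.e) (M.e k) q := by
  classical
  let T := {x : Nm P // HS F x} × P
  let lv : List T → ℕ → Nm P := fun l i => (l.getD i (⟨b 0, hb 0⟩, p₀)).1.1
  let R : (ℕ ⊕ Fml) ⊕ (Fml ⊕ Unit) ⊕ J → List T → T → Prop := fun j l t => match j with
    | .inl (.inl n) => t.1.1 = b n
    | .inl (.inr φ) => Force F φ (lv l) t.2 ∨ Force F (.neg φ) (lv l) t.2
    | .inr (.inl (.inl φ)) => Force F (.all φ) (lv l) t.2 ∨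
        Force F (.neg φ) (cons t.1.1 (lv l)) t.2
    | .inr (.inl (.inr _)) => (∀ q ≤ t.2, ¬ fmem (lv l 0) (lv l 1) q) ∨
        ∃ j, t.2 ∈ (lv l 1).c j ∧ feq (lv l 0) ((lv l 1).A j) t.2 ∧ t.1.1 = (lv l 1).A j
    | .inr (.inr n) => X n (l.map fun t => t.1.1) t.1.1 t.2
  have hlv : ∀ l i, HS F (lv l i) := fun l i => (l.getD i (⟨b 0, hb 0⟩, p₀)).1.2
  obtain ⟨e, h1, h0, h2⟩ := exists_generic (T := T) Prod.snd (⟨b 0, hb 0⟩, p₀) R (by
    rintro ((n | φ) | (φ | u) | n) l p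
    · exact ⟨(⟨b n, hb n⟩, p), le_rfl, rfl⟩
    · by_cases h : Force F φ (lv l) p
      · exact ⟨(⟨b 0, hb 0⟩, p), le_rfl, Or.inl h⟩
      · obtain ⟨q, hq, h3⟩ := exists_force_neg h
        exact ⟨(⟨b 0, hb 0⟩, q), hq, Or.inr h3⟩
    · by_cases h : Force F (.all φ) (lv l) p
      · exact ⟨(⟨b 0, hb 0⟩, p), le_rfl, Or.inl h⟩
      · obtain ⟨x, hx⟩ := not_forall.1 h
        obtain ⟨hx, h3⟩ := Classical.not_imp.1 hx
        obtain ⟨q, hq, h4⟩ := exists_force_neg h3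
        exact ⟨(⟨x, hx⟩, q), hq, Or.inr h4⟩
    · by_cases h : ∀ q ≤ p, ¬ fmem (lv l 0) (lv l 1) q
      · exact ⟨(⟨b 0, hb 0⟩, p), le_rfl, Or.inl h⟩
      · push Not at h
        obtain ⟨q, hq, h3⟩ := h
        obtain ⟨r, hr, j, h4, h5⟩ := h3 q le_rfl
        exact ⟨(⟨_, (hlv l 1).child j⟩, r), hr.trans hq, Or.inr ⟨j, h4, h5, rfl⟩⟩
    · obtain ⟨x, q, hx, hq, h3⟩ := hX n (l.map fun t => t.1.1) p (fun x hx => by
        obtain ⟨t, -, rfl⟩ := List.mem_map.1 hx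
        exact t.1.2)
      exact ⟨(⟨x, hx⟩, q), hq, h3⟩)
  have hr : ∀ n i, i < n → lv ((List.range n).map e) i = (e i).1.1 := fun n i hi => by
    simp [lv, List.getD_eq_getElem?_getD, hi]
  have hG : ∀ k, (e k).2 ∈ {q | ∃ k, (e k).2 ≤ q} := fun k => ⟨k, le_rfl⟩
  refine ⟨⟨fun k => (e k).1.1, {q | ∃ k, (e k).2 ≤ q}, fun k => (e k).1.2, fun n => ?_,
    fun p ⟨k, hk⟩ q hq => ⟨k, hk.trans hq⟩, fun p ⟨k, hk⟩ q ⟨l, hl⟩ => ⟨_, hG (max k l),
      (h1 (le_max_left k l)).trans hk, (h1 (le_max_right k l)).trans hl⟩, ⟨_, hG 0⟩,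
    fun φ => ?_, fun φ => ?_, fun k l => ?_⟩, ⟨0, h0⟩, fun n l => ?_⟩
  · exact h2 (.inl (.inl n)) []
  · obtain ⟨k, hk⟩ := h2 (.inl (.inr φ)) (List.range (bd φ))
    refine ⟨_, hG k, hk.imp (force_congr fun i hi => ?_) (force_congr fun i hi => ?_)⟩
    · rw [hr (bd φ) i hi]; exact feq.refl _ _
    · rw [hr (bd φ) i hi]; exact feq.refl _ _
  · obtain ⟨k, hk⟩ := h2 (.inr (.inl (.inl φ))) (List.range (bd φ))
    refine ⟨_, hG k, hk.imp (force_congr fun i hi => ?_)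
      (fun h => ⟨k, force_congr (fun i hi => ?_) h⟩)⟩
    · rw [hr (bd φ) i hi]; exact feq.refl _ _
    · cases i with
      | zero => exact feq.refl _ _
      | succ i =>
        change feq (lv _ i) (e i).1.1 _
        rw [hr _ i (by simp only [bd] at hi; omega)]; exact feq.refl _ _
  · obtain ⟨m, hm⟩ := h2 (.inr (.inl (.inr ()))) [k, l]
    refine ⟨_, hG m, hm.imp id ?_⟩
    rintro ⟨j, h3, h4, h5⟩
    exact ⟨j, h3, h4, m, h5⟩
  · obtain ⟨m, hm⟩ := h2 (.inr (.inr n)) l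
    refine ⟨m, _, hG m, ?_⟩
    have : l.map (fun k => (e k).1.1) = (l.map e).map fun t => t.1.1 := by simp
    rw [this]
    exact hm

variable (F) in
/-- The fusion property. -/
def Fusion (P : Type) [Preorder P] [MulAction Γ P] [CovariantClass Γ P (· • ·) (· ≤ ·)] : Prop :=
  ∀ (S : Nm P → Nm P → P → Prop), (∀ x y p q, S x y p → q ≤ p → S x y q) →
    ∀ x₀, HS F x₀ → ∀ p, ∃ q ≤ p, ∃ z : ℕ → Nm P, (∀ m, HS F (z m)) ∧ z 0 = x₀ ∧
      ∀ m y q', HS F y → q' ≤ q → S (z m) y q' → ∃ q'' ≤ q', ∃ k, S (z m) (z k) q''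

/-- Closure properties of a model. -/
structure Rich (M : Mod F (natN (P := P))) : Prop where
  om : ∃ k, M.e k = omN
  ch : ∀ k z, M.e k = sqN z → ∀ n, ∃ k', M.e k' = z n
  fst : ∀ k x y, M.e k = opN x y → ∃ k', M.e k' = x
  fus : ∀ ka kR k0, ∃ z k, M.e k = sqN z ∧ z 0 = M.e k0 ∧ ∃ q ∈ M.G, ∀ m y q', HS F y → q' ≤ q →
    Sc (M.e ka) (M.e kR) (z m) y q' → ∃ q'' ≤ q', ∃ k, Sc (M.e ka) (M.e kR) (z m) (z k) q''
  dec : ∀ ka kR k z, M.e k = sqN z → ∀ m, ∃ q ∈ M.G,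
    (∃ k', Sc (M.e ka) (M.e kR) (z m) (z k') q) ∨
      ∀ q' ≤ q, ∀ k', ¬ Sc (M.e ka) (M.e kR) (z m) (z k') q'
  gam : ∀ ka kR k z, M.e k = sqN z → ∃ k', M.e k' = gamN (M.e ka) (M.e kR) z

theorem exists_rich (hσ : Sigma F) (hf : Fusion F P) (p₀ : P)
    {J : Type} [Countable J] (X : J → List (Nm P) → Nm P → P → Prop)
    (hX : ∀ j l p, (∀ x ∈ l, HS F x) → ∃ x q, HS F x ∧ q ≤ p ∧ X j l x q) :
    ∃ M : Mod F (natN (P := P)), Rich M ∧ p₀ ∈ M.G ∧
      ∀ j (l : List ℕ), ∃ k, ∃ q ∈ M.G, X j (l.map M.e) (M.e k) q := by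
  classical
  let X' : J ⊕ (Fin 6 × ℕ) → List (Nm P) → Nm P → P → Prop := fun j l x q => match j with
    | .inl j => X j l x q
    | .inr (0, _) => x = omN
    | .inr (1, n) => ∀ z, l = [sqN z] → x = z n
    | .inr (2, _) => ∀ u v, l = [opN u v] → x = u
    | .inr (3, _) => ∀ a R x₀, l = [a, R, x₀] → ∃ z, x = sqN z ∧ z 0 = x₀ ∧
        ∀ m y q', HS F y → q' ≤ q → Sc a R (z m) y q' → ∃ q'' ≤ q', ∃ k, Sc a R (z m) (z k) q''
    | .inr (4, m) => ∀ a R z, l = [a, R, sqN z] → (∃ k', Sc a R (z m) (z k') q) ∨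
        ∀ q' ≤ q, ∀ k', ¬ Sc a R (z m) (z k') q'
    | .inr (5, _) => ∀ a R z, l = [a, R, sqN z] → x = gamN a R z
  have h0 : HS F (omN (P := P)) := chk_omN.hs F
  obtain ⟨M, h1, h2⟩ := exists_mod' F natN (fun n => (chk_natN n).hs F) p₀ X' (by
    rintro (j | ⟨i, n⟩) l p hl
    · exact hX j l p hl
    · match i with
      | 0 => exact ⟨omN, p, h0, le_rfl, rfl⟩
      | 1 =>
        by_cases h : ∃ z, l = [sqN z]
        · obtain ⟨z, rfl⟩ := h
          refine ⟨z n, p, (hl (sqN z) (by simp)).child n, le_rfl, fun z' h => ?_⟩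
          rw [sqN_inj (List.singleton_inj.1 h)]
        · exact ⟨omN, p, h0, le_rfl, fun z hz => absurd ⟨z, hz⟩ h⟩
      | 2 =>
        by_cases h : ∃ u v, l = [opN u v]
        · obtain ⟨u, v, rfl⟩ := h
          exact ⟨u, p, hs_of_opN (hl (opN u v) (by simp)), le_rfl,
            fun u' v' h => (opN_inj (List.singleton_inj.1 h)).1⟩
        · exact ⟨omN, p, h0, le_rfl, fun u v hz => absurd ⟨u, v, hz⟩ h⟩
      | 3 =>
        by_cases h : ∃ a R x₀, l = [a, R, x₀]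
        · obtain ⟨a, R, x₀, rfl⟩ := h
          obtain ⟨q, hq, z, h3, h4, h5⟩ := hf (Sc a R) (fun _ _ _ _ => Sc.mono) x₀
            (hl x₀ (by simp)) p
          refine ⟨sqN z, q, hs_sqN hσ h3, hq, fun a' R' x' h => ?_⟩
          simp only [List.cons.injEq, and_true] at h
          obtain ⟨rfl, rfl, rfl⟩ := h
          exact ⟨z, rfl, h4, h5⟩
        · exact ⟨omN, p, h0, le_rfl, fun a R x hz => absurd ⟨a, R, x, hz⟩ h⟩
      | 4 =>
        by_cases h : ∃ a R z, l = [a, R, sqN z]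
        · obtain ⟨a, R, z, rfl⟩ := h
          by_cases h3 : ∃ q ≤ p, ∃ k', Sc a R (z n) (z k') q
          · obtain ⟨q, hq, h3⟩ := h3
            refine ⟨omN, q, h0, hq, fun a' R' z' h => ?_⟩
            simp only [List.cons.injEq, and_true] at h
            obtain ⟨rfl, rfl, h⟩ := h
            obtain rfl := sqN_inj h
            exact Or.inl h3
          · refine ⟨omN, p, h0, le_rfl, fun a' R' z' h => ?_⟩
            simp only [List.cons.injEq, and_true] at h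
            obtain ⟨rfl, rfl, h⟩ := h
            obtain rfl := sqN_inj h
            exact Or.inr fun q hq k hk => h3 ⟨q, hq, k, hk⟩
        · exact ⟨omN, p, h0, le_rfl, fun a R x hz => absurd ⟨a, R, x, hz⟩ h⟩
      | 5 =>
        by_cases h : ∃ a R z, l = [a, R, sqN z]
        · obtain ⟨a, R, z, rfl⟩ := h
          refine ⟨gamN a R z, p, hs_gamN hσ (hl a (by simp)) (hl R (by simp))
            (fun n => (hl (sqN z) (by simp)).child n), le_rfl, fun a' R' z' h => ?_⟩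
          simp only [List.cons.injEq, and_true] at h
          obtain ⟨rfl, rfl, h⟩ := h
          obtain rfl := sqN_inj h
          rfl
        · exact ⟨omN, p, h0, le_rfl, fun a R x hz => absurd ⟨a, R, x, hz⟩ h⟩)
  refine ⟨M, ⟨?_, fun k z hk n => ?_, fun k x y hk => ?_, fun ka kR k0 => ?_,
    fun ka kR k z hk m => ?_, fun ka kR k z hk => ?_⟩, h1, fun j l => h2 (.inl j) l⟩
  · obtain ⟨k, q, -, h⟩ := h2 (.inr (0, 0)) []
    exact ⟨k, h⟩
  · obtain ⟨k', q, -, h⟩ := h2 (.inr (1, n)) [k]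
    exact ⟨k', h z (by simp [hk])⟩
  · obtain ⟨k', q, -, h⟩ := h2 (.inr (2, 0)) [k]
    exact ⟨k', h x y (by simp [hk])⟩
  · obtain ⟨k', q, hq, h⟩ := h2 (.inr (3, 0)) [ka, kR, k0]
    obtain ⟨z, h3, h4, h5⟩ := h _ _ _ rfl
    exact ⟨z, k', h3, h4, q, hq, h5⟩
  · obtain ⟨k', q, hq, h⟩ := h2 (.inr (4, m)) [ka, kR, k]
    exact ⟨q, hq, h _ _ z (by simp [hk])⟩
  · obtain ⟨k', q, hq, h⟩ := h2 (.inr (5, 0)) [ka, kR, k]
    exact ⟨k', h _ _ z (by simp [hk])⟩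

end Pool.Agent.H154Z.Bip
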