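import Pool.Agent.H154Z.Bip.Ultra

/-!
# The model
-/

set_option autoImplicit false

namespace Pool.Agent.H154Z.Bip

open Set Filter Topology Pool.Agent.H164Z.Bspt Pool.Agent.H982Z.Sym

variable {Γ : SimpleGraph Y}

variable (Γ) in
/-- adjacent or equal -/
def Bs (ε : Bool) (y y' : Y) : Prop := (ε = true ∧ Γ.Adj y y') ∨ (ε = false ∧ y = y')

theorem Bs.rl {ε : Bool} {y y' : Y} (h : Bs Γ ε y y') : Rl Γ ε y y' := by
  rcases h with ⟨rfl, h⟩ | ⟨rfl, rfl⟩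
  · exact Rl.adj h
  · exact Rl.refl _

theorem measurable_bs (hB : MeasurableSet {p : Y × Y | Γ.Adj p.1 p.2}) (ε : Bool) (b b' : RN) :
    @MeasurableSet X (borel X) {z | Bs Γ ε (b.ev z) (b'.ev z)} := by
  letI : MeasurableSpace X := borel X
  have h1 : MeasurableSet {p : Y × Y | Bs Γ ε p.1 p.2} := by
    cases ε
    · have : {p : Y × Y | Bs Γ false p.1 p.2} = diagonal Y := by
        ext p; simp [Bs]
      rw [this]
      exact isClosed_diagonal.measurableSet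
    · have : {p : Y × Y | Bs Γ true p.1 p.2} = {p : Y × Y | Γ.Adj p.1 p.2} := by
        ext p; simp [Bs]
      rw [this]
      exact hB
  exact (b.measurable_ev.prodMk b'.measurable_ev) h1

/-- the constant name -/
def cst (c : Y) : RN :=
  ⟨fun k => {_z | c k = true}, fun k => by
    by_cases h : c k = true <;> simp [h], ∅, countable_empty, fun _ _ _ _ h => h⟩

section
variable {M : Mod FC (natN (P := Cn Γ))}

theorem exists_point (M : Mod FC (natN (P := Cn Γ))) : ∃ z : X, ∀ p ∈ M.G, z ∈ p.1.r := by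
  obtain ⟨p₀, hp₀⟩ := M.ne
  have : Nonempty M.G := ⟨⟨p₀, hp₀⟩⟩
  obtain ⟨z, hz⟩ := IsCompact.nonempty_iInter_of_directed_nonempty_isCompact_isClosed
    (fun p : M.G => p.1.1.r) (fun p q => by
      obtain ⟨r, hr, h1, h2⟩ := M.dir p.1 p.2 q.1 q.2
      exact ⟨⟨r, hr⟩, h1.1, h2.1⟩) (fun p => p.1.1.ne) (fun p => p.1.1.cl.isClosed.isCompact)
    (fun p => p.1.1.cl.isClosed)
  exact ⟨z, fun p hp => mem_iInter.1 hz ⟨p, hp⟩⟩

theorem mem_nm {z : X} (hz : ∀ p ∈ M.G, z ∈ p.1.r) {k : ℕ} {b : RN} (hk : M.e k = nm b)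
    (t : M.N) : M.E t (M.cl k) ↔ ∃ n, t = nu M n ∧ z ∈ b.O n := by
  constructor
  · intro ht
    obtain ⟨j, m, h1, rfl, h2⟩ := M.mem_cases ht
    revert j
    rw [hk]
    rintro j h1 ⟨p, hp, h2⟩
    exact ⟨j, den_unique (den_of_eq h1) (den_nu j), h2 (hz p hp)⟩
  · rintro ⟨n, rfl, hn⟩
    by_contra h
    obtain ⟨p, hp, h1⟩ := not_gm (den_nu n) (den_of_eq hk) h
    obtain ⟨q, h2, h3⟩ := exists_shrink p (b.op n) ⟨z, hz p hp, hn⟩
    exact h1 q h2 (fmem_child (nm b) n h3)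

theorem nu_mem_nm {z : X} (hz : ∀ p ∈ M.G, z ∈ p.1.r) {k : ℕ} {b : RN} (hk : M.e k = nm b)
    (n : ℕ) : M.E (nu M n) (M.cl k) ↔ b.ev z n = true := by
  rw [mem_nm hz hk, b.ev_true]
  exact ⟨fun ⟨m, h1, h2⟩ => nu_inj h1 ▸ h2, fun h => ⟨n, rfl, h⟩⟩

theorem real_nm (h : Rich M) {z : X} (hz : ∀ p ∈ M.G, z ∈ p.1.r) {k : ℕ} {b : RN}
    (hk : M.e k = nm b) : IsReal M.E (M.cl k) := fun t ht => by
  obtain ⟨n, h1, -⟩ := (mem_nm hz hk t).1 ht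
  exact (h.isNat_iff t).2 ⟨n, h1⟩

theorem codes_nm (h : Rich M) {z : X} (hz : ∀ p ∈ M.G, z ∈ p.1.r) {k : ℕ} {b : RN}
    (hk : M.e k = nm b) (u : Y) : Codes M.E (M.cl k) u ↔ u = b.ev z := by
  constructor
  · intro h1
    funext n
    rw [Bool.eq_iff_iff, ← nu_mem_nm hz hk, h1.2 n _ ((isNum_iff n _).2 rfl)]
  · rintro rfl
    exact ⟨real_nm h hz hk, fun n t ht => by
      rw [(isNum_iff n t).1 ht, nu_mem_nm hz hk]⟩

end

theorem main (hB : MeasurableSet {p : Y × Y | Γ.Adj p.1 p.2}) (hΓ : ∃ c, Prp Γ c) (c : Y) :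
    ∃ (N : Type) (E : N → N → Prop), Countable N ∧ IsZF E ∧ WellFounded E ∧ DC E ∧
      (∃ x, Codes E x c) ∧ HasColouring E Γ id ∧ ¬ ∃ U, IsFreeUltrafilter E U := by
  classical
  choose W hW1 hW2 using fun ε b b' => exists_bp (measurable_bs hB ε b b')
  let S : Fin 6 × ℕ × Bool → List (Nm (Cn Γ)) → Nm (Cn Γ) → Cn Γ → Prop := fun j l x q =>
    match j with
    | (0, _) => x = colN Γ
    | (1, _) => x = nm (cst c)
    | (2, _) => ∀ y, l = [y] → ∃ b, x = nm b ∧ ∀ k, ∀ q' ≤ q,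
        (fmem (natN k) y q' ↔ fmem (natN k) (nm b) q')
    | (3, _) => ∀ b, l = [nm b] → ∃ r i, (b, r, i) ∈ q.2.κ ∧ q.1.r ⊆ r
    | (4, n, ε) => ∀ b b', l = [nm b, nm b'] → q.1.r ⊆ W ε b b' n
    | (5, _) => ∀ U, l = [U] → ∃ b : ℕ → RN, x = sqN (fun n => nm (b n)) ∧
        ((fmem (nm (b 0)) U q ∧ fmem (nm (b 1)) U q ∧ fmem (nm (b 2)) U q ∧
          {k | ((b 0).O k ∩ (b 1).O k ∩ (b 2).O k).Nonempty}.Finite) ∨
        ((∀ k, (b 1).O k = ((b 0).O k)ᶜ) ∧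
          ∀ q' ≤ q, ¬ fmem (nm (b 0)) U q' ∧ ¬ fmem (nm (b 1)) U q'))
  obtain ⟨M, hM, -, hS⟩ := exists_rich sigma_FC fusion_FC
    ((⟨univ, isClopen_univ, univ_nonempty⟩, Qc.emp) : Cn Γ) S (by
    rintro ⟨i, n, ε⟩ l p hl
    match i with
    | 0 => exact ⟨_, p, hs_colN, le_rfl, rfl⟩
    | 1 => exact ⟨_, p, hs_nm _, le_rfl, rfl⟩
    | 2 =>
      by_cases h : ∃ y, l = [y]
      · obtain ⟨y, rfl⟩ := h
        obtain ⟨q, h1, b, h2⟩ := exists_real y p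
        refine ⟨nm b, q, hs_nm b, h1, fun y' h => ?_⟩
        obtain rfl := List.singleton_inj.1 h
        exact ⟨b, rfl, h2⟩
      · exact ⟨_, p, hs_colN, le_rfl, fun y hy => absurd ⟨y, hy⟩ h⟩
    | 3 =>
      by_cases h : ∃ b, l = [nm b]
      · obtain ⟨b, rfl⟩ := h
        obtain ⟨q, h1, h2⟩ := exists_col hΓ b p
        refine ⟨_, q, hs_colN, h1, fun b' h => ?_⟩
        obtain rfl := nm_inj (List.singleton_inj.1 h)
        exact h2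
      · exact ⟨_, p, hs_colN, le_rfl, fun y hy => absurd ⟨y, hy⟩ h⟩
    | 4 =>
      by_cases h : ∃ b b', l = [nm b, nm b']
      · obtain ⟨b, b', rfl⟩ := h
        obtain ⟨q, h1, h2⟩ := exists_shrink p (hW1 ε b b' n).1
          ((hW1 ε b b' n).2.inter_open_nonempty _ p.1.cl.isOpen p.1.ne)
        refine ⟨_, q, hs_colN, h1, fun b₁ b₂ h => ?_⟩
        simp only [List.cons.injEq, and_true] at h
        obtain rfl := nm_inj h.1
        obtain rfl := nm_inj h.2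
        exact h2
      · exact ⟨_, p, hs_colN, le_rfl, fun y y' hy => absurd ⟨y, y', hy⟩ h⟩
    | 5 =>
      by_cases h : ∃ y, l = [y]
      · obtain ⟨U, rfl⟩ := h
        obtain ⟨q, h1, b, h2⟩ := exists_three hΓ (hl U (by simp)) p
        refine ⟨_, q, hs_sqN sigma_FC fun n => hs_nm (b n), h1, fun y' h => ?_⟩
        obtain rfl := List.singleton_inj.1 h
        exact ⟨b, rfl, h2⟩
      · exact ⟨_, p, hs_colN, le_rfl, fun y hy => absurd ⟨y, hy⟩ h⟩)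
  obtain ⟨z, hz⟩ := exists_point M
  have hreal : ∀ x, IsReal M.E x → ∃ k b, M.e k = nm b ∧ x = M.cl k := by
    intro x hx
    obtain ⟨l, rfl⟩ := M.cl_surj x
    obtain ⟨k, q, hq, h⟩ := hS (2, 0, false) [l]
    obtain ⟨b, h1, h2⟩ := h _ rfl
    have h3 : ∀ n, M.E (nu M n) (M.cl l) ↔ M.E (nu M n) (M.cl k) := fun n => by
      rw [(den_nu n).mem_iff (Mod.Den.cl l), (den_nu n).mem_iff (den_of_eq h1)]
      constructor
      · rintro ⟨p, hp, h3⟩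
        obtain ⟨r, hr, h4, h5⟩ := M.dir p hp q hq
        exact ⟨r, hr, (h2 n r h5).1 (h3.mono h4)⟩
      · rintro ⟨p, hp, h3⟩
        obtain ⟨r, hr, h4, h5⟩ := M.dir p hp q hq
        exact ⟨r, hr, (h2 n r h5).2 (h3.mono h4)⟩
    refine ⟨k, b, h1, M.ext _ _ fun t => ⟨fun ht => ?_, fun ht => ?_⟩⟩
    · obtain ⟨n, rfl⟩ := (hM.isNat_iff t).1 (hx t ht)
      exact (h3 n).1 ht
    · obtain ⟨n, rfl⟩ := (hM.isNat_iff t).1 (real_nm hM hz h1 t ht)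
      exact (h3 n).2 ht
  refine ⟨M.N, M.E, M.cl_surj.countable, M.zf, M.wf, hM.dc, ?_, ?_, ?_⟩
  · obtain ⟨k, q, -, h⟩ := hS (1, 0, false) []
    refine ⟨M.cl k, (codes_nm hM hz h c).2 (funext fun n => ?_)⟩
    rw [Bool.eq_iff_iff, RN.ev_true]
    rfl
  · obtain ⟨kf, q₀, -, hf⟩ := hS (0, 0, false) []
    change M.e kf = colN Γ at hf
    let Col : ℕ → RN → Bool → Prop := fun k b i =>
      M.e k = nm b ∧ ∃ q ∈ M.G, ∃ r, (b, r, i) ∈ q.2.κ ∧ q.1.r ⊆ r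
    have h1 : ∀ p, M.E p (M.cl kf) ↔
        ∃ k b i, Col k b i ∧ IsOP M.E p (M.cl k) (nu M i.toNat) := by
      intro p
      constructor
      · intro hp
        obtain ⟨j, m, h1, rfl, h2⟩ := M.mem_cases hp
        revert j
        rw [hf]
        rintro ⟨b, i⟩ h1 h2
        obtain ⟨k, hk⟩ := hM.fst m _ _ h1
        exact ⟨k, b, i, ⟨hk, h2⟩, isOP_of_den (den_of_eq hk) (den_nu _) (den_of_eq h1)⟩
      · rintro ⟨k, b, i, ⟨h1, q, hq, h2⟩, h3⟩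
        obtain ⟨d, h4, h5⟩ := den_op (den_of_eq h1) (den_nu (M := M) i.toNat)
        rw [M.str.op_unique h3 h5, h4.mem_iff (den_of_eq hf)]
        exact gm_child (x := colN Γ) (b, i) hq h2
    have h2 : ∀ x y, Rel M.E (M.cl kf) x y ↔
        ∃ k b i, Col k b i ∧ x = M.cl k ∧ y = nu M i.toNat := by
      intro x y
      constructor
      · rintro ⟨p, h2, h3⟩
        obtain ⟨k, b, i, h4, h5⟩ := (h1 p).1 h2
        exact ⟨k, b, i, h4, M.str.op_inj h3 h5⟩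
      · rintro ⟨k, b, i, h2, rfl, rfl⟩
        obtain ⟨p, hp⟩ := M.str.ex_op (M.cl k) (nu M i.toNat)
        exact ⟨p, (h1 p).2 ⟨k, b, i, h2, hp⟩, hp⟩
    have h3 : ∀ k b i k' b' i' ε, Col k b i → Col k' b' i' → Bs Γ ε (b.ev z) (b'.ev z) →
        xor i i' = ε := by
      rintro k b i k' b' i' ε ⟨a1, q, hq, r, a2, a3⟩ ⟨b1, q', hq', r', b2, b3⟩ h
      obtain ⟨s, hs, h3, h4⟩ := M.dir q hq q' hq'
      obtain ⟨U, h5, h6, h7⟩ := hW2 ε b b' z (fun n => by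
        obtain ⟨_, p, hp, h5⟩ := hS (4, n, ε) [k, k']
        exact h5 b b' (by simp [a1, b1]) (hz p hp)) h
      refine s.2.cons _ (h3.2 a2) _ (h4.2 b2) ε ⟨U ∩ s.1.r, h5.inter s.1.cl.isOpen,
        ⟨z, h6, hz s hs⟩, ?_⟩
      filter_upwards [h7] with w hw hw'
      exact ⟨a3 (h3.1 hw'.2), b3 (h4.1 hw'.2), Bs.rl (hw hw'.1)⟩
    obtain ⟨w, hw⟩ := hM.omega
    obtain ⟨R, hR⟩ := M.zf.power w
    have h4 : ∀ x, M.E x R ↔ IsReal M.E x := fun x => (hR x).trans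
      (forall_congr' fun t => imp_congr_right fun _ => (hw t).trans (hM.isNat_iff t).symm)
    refine ⟨R, nu M 2, M.cl kf, h4, (isNum_iff 2 _).2 rfl, ⟨fun p hp => ?_, fun x hx => ?_⟩,
      fun x y u v i hx hy huv hxi hyi => ?_⟩
    · obtain ⟨k, b, i, h5, h6⟩ := (h1 p).1 hp
      exact ⟨_, _, (h4 _).2 (real_nm hM hz h5.1), mem_nu.2 ⟨_, Bool.toNat_lt i, rfl⟩, h6⟩
    · obtain ⟨k, b, h5, rfl⟩ := hreal x ((h4 x).1 hx)
      obtain ⟨_, q, hq, h6⟩ := hS (3, 0, false) [k]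
      obtain ⟨r, i, h7⟩ := h6 b (by simp [h5])
      have h8 : Col k b i := ⟨h5, q, hq, r, h7⟩
      refine ⟨_, (h2 _ _).2 ⟨k, b, i, h8, rfl, rfl⟩, fun y hy => ?_⟩
      obtain ⟨k', b', i', h9, h10, rfl⟩ := (h2 _ _).1 hy
      have h11 : b.ev z = b'.ev z :=
        (codes_nm hM hz h9.1 _).1 (h10 ▸ (codes_nm hM hz h5 _).2 rfl)
      have h12 := h3 _ _ _ _ _ _ false h8 h9 (Or.inr ⟨rfl, h11⟩)
      have h13 : i = i' := by
        revert h12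
        cases i <;> cases i' <;> simp
      rw [h13]
    · obtain ⟨k, b, j, h5, rfl, rfl⟩ := (h2 _ _).1 hxi
      obtain ⟨k', b', j', h6, rfl, h7⟩ := (h2 _ _).1 hyi
      obtain rfl : u = _ := (codes_nm hM hz h5.1 _).1 hx
      obtain rfl : v = _ := (codes_nm hM hz h6.1 _).1 hy
      have h8 := h3 _ _ _ _ _ _ true h5 h6 (Or.inl ⟨rfl, huv⟩)
      have h9 := nu_inj h7
      revert h8 h9
      cases j <;> cases j' <;> simp
  · rintro ⟨U, hU⟩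
    obtain ⟨kU, rfl⟩ := M.cl_surj U
    obtain ⟨k, q, hq, h⟩ := hS (5, 0, false) [kU]
    obtain ⟨b, h1, h2⟩ := h _ rfl
    choose kb hkb using hM.ch k _ h1
    have h3 : ∀ n, M.E (M.cl (kb n)) (M.cl kU) ↔ M.GM (nm (b n)) (M.e kU) := fun n =>
      (den_of_eq (hkb n)).mem_iff (Mod.Den.cl kU)
    rcases h2 with ⟨a0, a1, a2, a3⟩ | ⟨a0, a1⟩
    · obtain ⟨x, hx⟩ := M.zf.sep (.mem 0 1) (fun _ => M.cl (kb 1)) (M.cl (kb 0))
      obtain ⟨y, hy⟩ := M.zf.sep (.mem 0 1) (fun _ => M.cl (kb 2)) x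
      have h4 := hU.inter _ _ y (hU.inter _ _ x ((h3 0).2 ⟨q, hq, a0⟩) ((h3 1).2 ⟨q, hq, a1⟩) hx)
        ((h3 2).2 ⟨q, hq, a2⟩) hy
      have h5 : {n | z ∈ (b 0).O n ∩ (b 1).O n ∩ (b 2).O n}.Finite :=
        a3.subset fun n hn => ⟨z, hn⟩
      refine hU.free y h4 (isFin_of_finite h5.toFinset y fun t => ?_)
      rw [hy, hx]
      change (M.E t (M.cl (kb 0)) ∧ M.E t (M.cl (kb 1))) ∧ M.E t (M.cl (kb 2)) ↔ _
      rw [mem_nm hz (hkb 0), mem_nm hz (hkb 1), mem_nm hz (hkb 2)]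
      constructor
      · rintro ⟨⟨⟨n, rfl, b0⟩, ⟨n1, e1, b1⟩⟩, ⟨n2, e2, b2⟩⟩
        obtain rfl := nu_inj e1
        obtain rfl := nu_inj e2
        exact ⟨n, h5.mem_toFinset.2 ⟨⟨b0, b1⟩, b2⟩, rfl⟩
      · rintro ⟨n, hn, rfl⟩
        obtain ⟨⟨b0, b1⟩, b2⟩ := h5.mem_toFinset.1 hn
        exact ⟨⟨⟨n, rfl, b0⟩, ⟨n, rfl, b1⟩⟩, ⟨n, rfl, b2⟩⟩
    · have h4 := hU.ultra (M.cl (kb 0)) (M.cl (kb 1)) (real_nm hM hz (hkb 0)) fun t => by
        rw [mem_nm hz (hkb 0), mem_nm hz (hkb 1), hM.isNat_iff]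
        constructor
        · rintro ⟨n, rfl, hn⟩
          rw [a0] at hn
          exact ⟨⟨n, rfl⟩, fun ⟨m, h4, h5⟩ => hn (nu_inj h4 ▸ h5)⟩
        · rintro ⟨⟨n, rfl⟩, hn⟩
          exact ⟨n, rfl, by rw [a0]; exact fun h4 => hn ⟨n, rfl, h4⟩⟩
      rcases h4 with h4 | h4
      · obtain ⟨p, hp, h5⟩ := (h3 0).1 h4
        obtain ⟨r, -, h6, h7⟩ := M.dir p hp q hq
        exact (a1 r h7).1 (h5.mono h6)
      · obtain ⟨p, hp, h5⟩ := (h3 1).1 h4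
        obtain ⟨r, -, h6, h7⟩ := M.dir p hp q hq
        exact (a1 r h7).2 (h5.mono h6)

end Pool.Agent.H154Z.Bip
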