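import Pool.Agent.H154Z.Bip.Gen

/-!
# Values of pair names and numerals; dependent choice in a rich model
-/

set_option autoImplicit false

namespace Pool.Agent.H154Z.Bip

open Pool.Agent.H164Z.Bspt Pool.Agent.H982Z.Sym

variable {P : Type} [Preorder P]
variable {Γ : Type} [Group Γ] [MulAction Γ P] [CovariantClass Γ P (· • ·) (· ≤ ·)]
variable {F : NF Γ} {M : Mod F (natN (P := P))}

theorem gm_child {x : Nm P} (i : x.ι) {p : P} (hp : p ∈ M.G) (h : p ∈ x.c i) :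
    M.GM (x.A i) x := ⟨p, hp, fmem_child x i h⟩

theorem gm_top {x : Nm P} (i : x.ι) (h : x.c i = ⊤) : M.GM (x.A i) x := by
  obtain ⟨p, hp⟩ := M.ne
  exact gm_child i hp (by rw [h]; trivial)

theorem den_of_eq {m : ℕ} {x : Nm P} (h : M.e m = x) : M.Den x (M.cl m) := h ▸ Mod.Den.cl m

theorem den_up {x y : Nm P} {a c : M.N} (hx : M.Den x a) (hy : M.Den y c) :
    ∃ d, M.Den (upN x y) d ∧ ∀ s, M.E s d ↔ s = a ∨ s = c := by
  obtain ⟨d, hd⟩ := M.zf.pair a c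
  refine ⟨d, ?_, hd⟩
  obtain ⟨k, rfl⟩ := M.cl_surj d
  obtain ⟨i, rfl, hi⟩ := hx
  obtain ⟨j, rfl, hj⟩ := hy
  obtain ⟨p, hp, h1⟩ := (M.truth (.all (fIff (.mem 0 1) (fOr (.eq 0 2) (.eq 0 3))))
    (cons k (cons i fun _ => j))).1 fun s => (sat_iff _ _ _ _).2
      (by rw [sat_or]; exact hd s)
  have h2 : feq (M.e k) (upN (M.e i) (M.e j)) p := by
    refine feq_of_mem (fun t q hq ht => ?_) (fun t q hq _ => ?_)
    · have h3 := force_or.1 ((force_iff.1 (h1 _ ((M.hs k).child t)) q hq).1 (fmem_child _ t ht))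
      refine Dn.imp' h3 fun r _ h4 => ?_
      rcases h4 with h4 | h4
      · exact ⟨true, trivial, h4⟩
      · exact ⟨false, trivial, h4⟩
    · cases t
      · exact (force_iff.1 (h1 _ (M.hs j)) q hq).2
          (force_or.2 (Dn.of fun r _ => Or.inr (feq.refl _ _)))
      · exact (force_iff.1 (h1 _ (M.hs i)) q hq).2
          (force_or.2 (Dn.of fun r _ => Or.inl (feq.refl _ _)))
  obtain ⟨q, hq, h3, h4⟩ := M.and2 (fun _ _ => feq.mono) (fun _ _ => feq.mono) hi hj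
  exact ⟨k, rfl, Mod.GE.trans ⟨p, hp, h2⟩ ⟨q, hq, feq_upN h3 h4⟩⟩

theorem den_op {x y : Nm P} {a c : M.N} (hx : M.Den x a) (hy : M.Den y c) :
    ∃ d, M.Den (opN x y) d ∧ IsOP M.E d a c := by
  obtain ⟨d1, h1, h1'⟩ := den_up hx hx
  obtain ⟨d2, h2, h2'⟩ := den_up hx hy
  obtain ⟨d, h3, h3'⟩ := den_up h1 h2
  refine ⟨d, h3, fun t => (h3' t).trans (or_congr ?_ ?_)⟩
  · exact ⟨fun h s => by rw [h, h1', or_self], fun h => M.ext _ _ fun s => by
      rw [h, h1', or_self]⟩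
  · exact ⟨fun h s => by rw [h, h2'], fun h => M.ext _ _ fun s => by rw [h, h2']⟩

theorem den_unique {x : Nm P} {a c : M.N} (h : M.Den x a) (h' : M.Den x c) : a = c :=
  (h.eq_iff h').2 (Mod.GE.refl _)

theorem isOP_of_den {x y : Nm P} {a c d : M.N} (hx : M.Den x a) (hy : M.Den y c)
    (hd : M.Den (opN x y) d) : IsOP M.E d a c := by
  obtain ⟨d', h1, h2⟩ := den_op hx hy
  rwa [den_unique hd h1]

theorem rel_iff {x y R : Nm P} {a c r : M.N} (hx : M.Den x a) (hy : M.Den y c)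
    (hR : M.Den R r) : Rel M.E r a c ↔ M.GM (opN x y) R := by
  obtain ⟨d, h1, h2⟩ := den_op hx hy
  rw [← h1.mem_iff hR]
  exact ⟨fun ⟨p, h3, h4⟩ => by rwa [M.str.op_unique h2 h4], fun h => ⟨d, h, h2⟩⟩

theorem not_gm {x y : Nm P} {a c : M.N} (hx : M.Den x a) (hy : M.Den y c) (h : ¬ M.E a c) :
    ∃ p ∈ M.G, ∀ q ≤ p, ¬ fmem x y q := by
  obtain ⟨i, rfl, hi⟩ := hx
  obtain ⟨j, rfl, hj⟩ := hy
  obtain ⟨p, hp, h1⟩ := (M.truth (.neg (.mem 0 1)) (cons i fun _ => j)).1 h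
  obtain ⟨q, hq, h3, h4⟩ := M.and2 (fun _ _ => feq.mono) (fun _ _ => feq.mono) hi hj
  obtain ⟨r, hr, h5, h6⟩ := M.dir p hp q hq
  exact ⟨r, hr, fun s hs h7 => h1 s (hs.trans h5)
    ((h7.left (h3.mono (hs.trans h6)).symm).right (h4.mono (hs.trans h6)).symm)⟩

variable (M) in
/-- The numerals of the model. -/
noncomputable def nu (n : ℕ) : M.N := (M.exists_base n).choose

theorem den_nu (n : ℕ) : M.Den (natN n) (nu M n) := (M.exists_base n).choose_spec.1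

theorem nu_zero (t : M.N) : ¬ M.E t (nu M 0) := fun h => by
  obtain ⟨j, -⟩ := (M.exists_base 0).choose_spec.2 t h
  exact PEmpty.elim j

theorem nu_succ (n : ℕ) : IsSucc M.E (nu M (n + 1)) (nu M n) := by
  intro t
  constructor
  · intro h
    obtain ⟨j, h1, -⟩ := (M.exists_base (n + 1)).choose_spec.2 t h
    cases j with
    | none => exact Or.inr (den_unique h1 (den_nu n))
    | some j => exact Or.inl ((h1.mem_iff (den_nu n)).2 (gm_top j (natN_c n j)))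
  · obtain ⟨x, -, hx⟩ := M.exists_den t
    rw [hx.mem_iff (den_nu n), hx.mem_iff (den_nu (n + 1)), hx.eq_iff (den_nu n)]
    rintro (⟨p, hp, h⟩ | ⟨p, hp, h⟩)
    · exact ⟨p, hp, (fmem_natN_succ n x p).2 (Dn.of fun q hq => Or.inl (h.mono hq))⟩
    · exact ⟨p, hp, (fmem_natN_succ n x p).2 (Dn.of fun q hq => Or.inr (h.mono hq))⟩

theorem nu_inj {m n : ℕ} (h : nu M m = nu M n) : m = n := by
  obtain ⟨p, -, h1⟩ := ((den_nu m).eq_iff (den_nu n)).1 h
  exact natN_inj h1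

theorem isNum_iff (n : ℕ) : ∀ t, IsNum M.E n t ↔ t = nu M n := by
  induction n with
  | zero =>
    intro t
    exact ⟨fun h => M.ext _ _ fun s => iff_of_false (h s) (nu_zero s),
      fun h s => h ▸ nu_zero s⟩
  | succ n ih =>
    intro t
    constructor
    · rintro ⟨y, h1, h2⟩
      rw [ih] at h1
      exact M.str.succ_unique h2 (h1 ▸ nu_succ n)
    · rintro rfl
      exact ⟨_, (ih _).2 rfl, nu_succ n⟩

theorem mem_nu {n : ℕ} : ∀ {t : M.N}, M.E t (nu M n) ↔ ∃ m < n, t = nu M m := by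
  induction n with
  | zero => exact iff_of_false (nu_zero _) (by simp)
  | succ n ih =>
    intro t
    rw [nu_succ n t, ih]
    constructor
    · rintro (⟨m, h1, h2⟩ | h)
      · exact ⟨m, by omega, h2⟩
      · exact ⟨n, by omega, h⟩
    · rintro ⟨m, h1, h2⟩
      rcases Nat.lt_succ_iff_lt_or_eq.1 h1 with h | rfl
      · exact Or.inl ⟨m, h, h2⟩
      · exact Or.inr h2

theorem Rich.omega (h : Rich M) : ∃ w, ∀ t, M.E t w ↔ ∃ n, t = nu M n := by
  obtain ⟨k, hk⟩ := h.om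
  refine ⟨M.cl k, fun t => ⟨fun ht => ?_, ?_⟩⟩
  · obtain ⟨j, m, h1, rfl, -⟩ := M.mem_cases ht
    revert j
    rw [hk]
    intro j h1
    exact ⟨j, den_unique (den_of_eq h1) (den_nu j)⟩
  · rintro ⟨n, rfl⟩
    refine ((den_nu n).mem_iff (Mod.Den.cl k)).2 ?_
    rw [hk]
    exact gm_top (x := omN) n rfl

theorem Rich.isNat_iff (h : Rich M) (t : M.N) : IsNat M.E t ↔ ∃ n, t = nu M n := by
  constructor
  · intro ht
    obtain ⟨w, hw⟩ := h.omega
    refine (hw t).1 (ht w ⟨⟨_, (hw _).2 ⟨0, rfl⟩, nu_zero⟩, fun x hx => ?_⟩)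
    obtain ⟨n, rfl⟩ := (hw x).1 hx
    exact ⟨_, (hw _).2 ⟨n + 1, rfl⟩, nu_succ n⟩
  · rintro ⟨n, rfl⟩
    induction n with
    | zero => exact M.str.nat_empty nu_zero
    | succ n ih => exact M.str.nat_succ ih (nu_succ n)

theorem sc_iff {x y a R : Nm P} {x' y' a' R' : M.N} (hx : M.Den x x') (hy : M.Den y y')
    (ha : M.Den a a') (hR : M.Den R R') :
    (∃ q ∈ M.G, Sc a R x y q) ↔ M.E y' a' ∧ Rel M.E R' x' y' := by
  rw [hy.mem_iff ha, rel_iff hx hy hR]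
  exact ⟨fun ⟨q, hq, h⟩ => ⟨⟨q, hq, h.1⟩, ⟨q, hq, h.2⟩⟩,
    fun h => M.and2 (fun _ _ => fmem.mono) (fun _ _ => fmem.mono) h.1 h.2⟩

theorem not_sc {x y a R : Nm P} {x' y' a' R' : M.N} (hx : M.Den x x') (hy : M.Den y y')
    (ha : M.Den a a') (hR : M.Den R R') (h : ¬ (M.E y' a' ∧ Rel M.E R' x' y')) :
    ∃ q ∈ M.G, ∀ q' ≤ q, ¬ Sc a R x y q' := by
  by_cases h1 : M.E y' a'
  · obtain ⟨d, h2, h3⟩ := den_op hx hy
    obtain ⟨q, hq, h4⟩ := not_gm h2 hR fun h4 => h ⟨h1, d, h4, h3⟩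
    exact ⟨q, hq, fun q' hq' h5 => h4 q' hq' h5.2⟩
  · obtain ⟨q, hq, h4⟩ := not_gm hy ha h1
    exact ⟨q, hq, fun q' hq' h5 => h4 q' hq' h5.1⟩

theorem exists_lower {S : ℕ → P → Prop} (hS : ∀ k p q, S k p → q ≤ p → S k q) (n : ℕ)
    (h : ∀ k < n, ∃ q ∈ M.G, S k q) : ∃ q ∈ M.G, ∀ k < n, S k q := by
  induction n with
  | zero =>
    obtain ⟨p, hp⟩ := M.ne
    exact ⟨p, hp, fun k hk => absurd hk (Nat.not_lt_zero k)⟩
  | succ n ih =>
    obtain ⟨p, hp, h1⟩ := ih fun k hk => h k (by omega)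
    obtain ⟨q, hq, h2⟩ := h n (by omega)
    obtain ⟨r, hr, h3, h4⟩ := M.dir p hp q hq
    refine ⟨r, hr, fun k hk => ?_⟩
    rcases Nat.lt_succ_iff_lt_or_eq.1 hk with h5 | rfl
    · exact hS _ _ _ (h1 k h5) h3
    · exact hS _ _ _ h2 h4

theorem Rich.dc (h : Rich M) : DC M.E := by
  classical
  rintro a R ⟨x₀, hx₀⟩ hR
  obtain ⟨ka, rfl⟩ := M.cl_surj a
  obtain ⟨kR, rfl⟩ := M.cl_surj R
  obtain ⟨k0, rfl⟩ := M.cl_surj x₀
  obtain ⟨z, k, hk, hz0, q₀, hq₀, hfus⟩ := h.fus ka kR k0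
  choose kz hkz using h.ch k z hk
  have hden : ∀ m, M.Den (z m) (M.cl (kz m)) := fun m => hkz m ▸ Mod.Den.cl (kz m)
  let Sx : ℕ → ℕ → Prop := fun m k =>
    M.E (M.cl (kz k)) (M.cl ka) ∧ Rel M.E (M.cl kR) (M.cl (kz m)) (M.cl (kz k))
  have hSx : ∀ m k, (∃ q ∈ M.G, Sc (M.e ka) (M.e kR) (z m) (z k) q) ↔ Sx m k := fun m k =>
    sc_iff (hden m) (hden k) (Mod.Den.cl ka) (Mod.Den.cl kR)
  have hstep : ∀ m, M.E (M.cl (kz m)) (M.cl ka) → ∃ k, Sx m k := by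
    intro m hm
    obtain ⟨y, hy⟩ := hR _ hm
    obtain ⟨y', hy', hy''⟩ := M.exists_den y
    obtain ⟨q, hq, h1⟩ := (sc_iff (hden m) hy'' (Mod.Den.cl ka) (Mod.Den.cl kR)).2 hy
    obtain ⟨q', hq', ⟨k', h2⟩ | h2⟩ := h.dec ka kR k z hk m
    · exact ⟨k', (hSx m k').1 ⟨q', hq', h2⟩⟩
    · obtain ⟨r, hr, h3, h4⟩ := M.dir q hq q' hq'
      obtain ⟨r', -, h5, h6⟩ := M.dir r hr q₀ hq₀
      obtain ⟨q'', h7, k', h8⟩ := hfus m y' r' hy' h6 (h1.mono (h5.trans h3))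
      exact absurd h8 (h2 q'' (h7.trans (h5.trans h4)) k')
  let s : ℕ → ℕ := fun n => Nat.rec 0 (fun _ m => if h : ∃ k, Sx m k then Nat.find h else 0) n
  have hs : ∀ n, s (n + 1) = if h : ∃ k, Sx (s n) k then Nat.find h else 0 := fun n => rfl
  have hmem : ∀ n, M.E (M.cl (kz (s n))) (M.cl ka) := by
    intro n
    induction n with
    | zero =>
      have : M.cl (kz 0) = M.cl k0 := den_unique (hden 0) (hz0 ▸ Mod.Den.cl k0)
      exact this ▸ hx₀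
    | succ n ih =>
      have h1 := hstep _ ih
      rw [hs, dif_pos h1]
      exact (Nat.find_spec h1).1
  have hsx : ∀ n, Sx (s n) (s (n + 1)) ∧ ∀ k < s (n + 1), ¬ Sx (s n) k := fun n => by
    have h1 := hstep _ (hmem n)
    rw [hs, dif_pos h1]
    exact ⟨Nat.find_spec h1, fun k hk => Nat.find_min h1 hk⟩
  have hT1 : ∀ n, ∃ q ∈ M.G, Tq (M.e ka) (M.e kR) z n (s n) q := by
    intro n
    induction n with
    | zero =>
      obtain ⟨p, hp⟩ := M.ne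
      exact ⟨p, hp, rfl⟩
    | succ n ih =>
      obtain ⟨q1, h1, h1'⟩ := ih
      obtain ⟨q2, h2, h2'⟩ := (hSx _ _).2 (hsx n).1
      obtain ⟨q3, h3, h3'⟩ := exists_lower (M := M)
        (S := fun k q => ∀ q' ≤ q, ¬ Sc (M.e ka) (M.e kR) (z (s n)) (z k) q')
        (fun k p q h hq q' hq' => h q' (hq'.trans hq)) (s (n + 1)) fun k hk =>
          not_sc (hden _) (hden k) (Mod.Den.cl ka) (Mod.Den.cl kR) ((hsx n).2 k hk)
      obtain ⟨r, hr, h4, h5⟩ := M.dir q1 h1 q2 h2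
      obtain ⟨r', hr', h6, h7⟩ := M.dir r hr q3 h3
      exact ⟨r', hr', s n, h1'.mono (h6.trans h4), h2'.mono (h6.trans h5),
        fun k hk q' hq' => h3' k hk q' (hq'.trans h7)⟩
  have hT2 : ∀ n m, ∀ q ∈ M.G, Tq (M.e ka) (M.e kR) z n m q → m = s n := by
    intro n
    induction n with
    | zero => exact fun m q _ h => h
    | succ n ih =>
      rintro m' q hq ⟨m, h1, h2, h3⟩
      obtain rfl := ih m q hq h1
      rcases lt_trichotomy m' (s (n + 1)) with h4 | h4 | h4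
      · exact absurd ((hSx _ _).1 ⟨q, hq, h2⟩) ((hsx n).2 _ h4)
      · exact h4
      · obtain ⟨q2, h5, h6⟩ := (hSx _ _).2 (hsx n).1
        obtain ⟨r, -, h7, h8⟩ := M.dir q hq q2 h5
        exact absurd (h6.mono h8) (h3 _ h4 r h7)
  obtain ⟨kg, hkg⟩ := h.gam ka kR k z hk
  have hg : ∀ p, M.E p (M.cl kg) ↔ ∃ n, IsOP M.E p (nu M n) (M.cl (kz (s n))) := by
    intro p
    constructor
    · intro hp
      obtain ⟨j, m, h1, rfl, h2⟩ := M.mem_cases hp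
      revert j
      rw [hkg]
      rintro ⟨n, m'⟩ h1 ⟨q, hq, h2⟩
      obtain rfl := hT2 n m' q hq h2
      exact ⟨n, isOP_of_den (den_nu n) (hden _) (den_of_eq h1)⟩
    · rintro ⟨n, hn⟩
      obtain ⟨d, h1, h2⟩ := den_op (den_nu (M := M) n) (hden (s n))
      rw [M.str.op_unique hn h2, h1.mem_iff (Mod.Den.cl kg), hkg]
      obtain ⟨q, hq, h3⟩ := hT1 n
      exact gm_child (x := gamN (M.e ka) (M.e kR) z) (n, s n) hq h3
  have hrel : ∀ n y, Rel M.E (M.cl kg) (nu M n) y ↔ y = M.cl (kz (s n)) := by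
    intro n y
    constructor
    · rintro ⟨p, h1, h2⟩
      obtain ⟨m, h3⟩ := (hg p).1 h1
      obtain ⟨h4, h5⟩ := M.str.op_inj h2 h3
      rw [h5, nu_inj h4]
    · rintro rfl
      obtain ⟨p, hp⟩ := M.str.ex_op (nu M n) (M.cl (kz (s n)))
      exact ⟨p, (hg p).2 ⟨n, hp⟩, hp⟩
  obtain ⟨w, hw⟩ := h.omega
  refine ⟨w, M.cl kg, fun n => (hw n).trans (h.isNat_iff n).symm, ⟨fun p hp => ?_,
    fun x hx => ?_⟩, fun n m x y hn hm hx hy => ?_⟩
  · obtain ⟨n, hn⟩ := (hg p).1 hp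
    exact ⟨_, _, (hw _).2 ⟨n, rfl⟩, hmem n, hn⟩
  · obtain ⟨n, rfl⟩ := (hw x).1 hx
    exact ⟨_, (hrel n _).2 rfl, fun y hy => (hrel n y).1 hy⟩
  · obtain ⟨n, rfl⟩ := (hw n).1 hn
    obtain rfl := M.str.succ_unique hm (nu_succ n)
    rw [(hrel _ _).1 hx, (hrel _ _).1 hy]
    exact (hsx n).1.2

theorem isFin_of_finite (S : Finset ℕ) : ∀ x : M.N, (∀ t, M.E t x ↔ ∃ n ∈ S, t = nu M n) →
    IsFin M.E x := by
  classical
  have hex : ∀ S : Finset ℕ, ∃ x : M.N, ∀ t, M.E t x ↔ ∃ n ∈ S, t = nu M n := by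
    intro S
    induction S using Finset.induction_on with
    | empty => exact ⟨nu M 0, fun t => iff_of_false (nu_zero t) (by simp)⟩
    | insert a S _ ih =>
      obtain ⟨x, hx⟩ := ih
      obtain ⟨c, hc⟩ := M.str.ex_insert x (nu M a)
      refine ⟨c, fun t => (hc t).trans ?_⟩
      change M.E t x ∨ _ ↔ _
      rw [hx]
      simp only [Finset.mem_insert, exists_eq_or_imp]
      exact or_comm
  induction S using Finset.induction_on with
  | empty => exact fun x hx => M.str.fin_empty fun t ht => by simpa using (hx t).1 ht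
  | insert a S _ ih =>
    intro x hx
    obtain ⟨y, hy⟩ := hex S
    refine M.str.fin_insert (y := nu M a) (ih y hy) fun t => ?_
    change M.E t x ↔ M.E t y ∨ _
    rw [hx, hy]
    simp only [Finset.mem_insert, exists_eq_or_imp]
    exact or_comm

end Pool.Agent.H154Z.Bip
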