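import Pool.Agent.H154Z.Bip.Cond
import Pool.Agent.H154Z.Bip.Val

/-!
# The notion of forcing, the group and the filter
-/

set_option autoImplicit false

namespace Pool.Agent.H154Z.Bip

open Set Filter Topology Pool.Agent.H164Z.Bspt Pool.Agent.H982Z.Sym

/-- nonempty clopen sets -/
@[ext] structure P0 where
  /-- the set -/
  r : Set X
  cl : IsClopen r
  ne : r.Nonempty

instance : Preorder P0 where
  le p q := p.r ⊆ q.r
  le_refl _ := Subset.rfl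
  le_trans _ _ _ := Subset.trans

/-- consistent families with countable support -/
@[ext] structure Qc (Γ : SimpleGraph Y) where
  /-- the family -/
  κ : Set Ent
  cons : Cons Γ κ
  cs : ∃ A : Set J, A.Countable ∧ ∀ e ∈ κ, SpE A e

variable {Γ : SimpleGraph Y}

instance : Preorder (Qc Γ) where
  le p q := q.κ ⊆ p.κ
  le_refl _ := Subset.rfl
  le_trans _ _ _ h h' := Subset.trans h' h

/-- the group -/
abbrev Gp : Type := X ≃ₜ X

instance : MulAction Gp P0 where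
  smul π p := ⟨π.symm ⁻¹' p.r, p.cl.preimage π.symm.continuous, by
    obtain ⟨z, hz⟩ := p.ne
    exact ⟨π z, by simpa using hz⟩⟩
  one_smul _ := rfl
  mul_smul _ _ _ := rfl

instance : MulAction Gp (Qc Γ) where
  smul π p := ⟨{e | pe π e ∈ p.κ}, fun _ he _ he' => Cp.of_pe π (p.cons _ he _ he'), by
    obtain ⟨A, h1, h2⟩ := p.cs
    obtain ⟨B, h3, h4⟩ := exists_dep' π.symm.continuous h1
    refine ⟨B, h3, fun e he => ?_⟩
    have := (h2 _ he).pe (ρ := π⁻¹) h4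
    rwa [pe_inv'] at this⟩
  one_smul _ := rfl
  mul_smul _ _ _ := rfl

/-- the conditions -/
abbrev Cn (Γ : SimpleGraph Y) : Type := P0 × Qc Γ

instance : CovariantClass Gp (Cn Γ) (· • ·) (· ≤ ·) :=
  ⟨fun _ _ _ h => ⟨fun _ hz => h.1 hz, fun _ he => h.2 he⟩⟩

theorem mem_inv_r (ρ : Gp) (p : Cn Γ) (z : X) : z ∈ (ρ⁻¹ • p).1.r ↔ ρ z ∈ p.1.r := Iff.rfl

theorem mem_inv_κ (ρ : Gp) (p : Cn Γ) (e : Ent) : e ∈ (ρ⁻¹ • p).2.κ ↔ pe ρ⁻¹ e ∈ p.2.κ := Iff.rfl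

theorem P0.exists_sub {U : Set X} (hU : IsOpen U) {z : X} (hz : z ∈ U) :
    ∃ s : P0, z ∈ s.r ∧ s.r ⊆ U := by
  obtain ⟨V, h1, h2, h3⟩ := compact_exists_isClopen_in_isOpen hU hz
  exact ⟨⟨V, h1, z, h2⟩, h2, h3⟩

theorem exists_shrink (p : Cn Γ) {U : Set X} (hU : IsOpen U) (h : (p.1.r ∩ U).Nonempty) :
    ∃ q ≤ p, q.1.r ⊆ U := by
  obtain ⟨z, hz⟩ := h
  obtain ⟨s, -, h1⟩ := P0.exists_sub (p.1.cl.isOpen.inter hU) hz
  exact ⟨(s, p.2), ⟨h1.trans inter_subset_left, le_rfl⟩, h1.trans inter_subset_right⟩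

theorem Qc.exists_lb (e : ℕ → Qc Γ) (h : Antitone e) : ∃ q, ∀ n, q ≤ e n := by
  choose A h1 h2 using fun n => (e n).cs
  refine ⟨⟨⋃ n, (e n).κ, fun a ha b hb => ?_, ⋃ n, A n, countable_iUnion h1, fun a ha => ?_⟩,
    fun n => subset_iUnion (fun n => (e n).κ) n⟩
  · obtain ⟨n, hn⟩ := mem_iUnion.1 ha
    obtain ⟨m, hm⟩ := mem_iUnion.1 hb
    exact (e (max n m)).cons a (h (le_max_left n m) hn) b (h (le_max_right n m) hm)
  · obtain ⟨n, hn⟩ := mem_iUnion.1 ha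
    exact (h2 n a hn).mono (subset_iUnion A n)

theorem Qc.exists_union (p q : Qc Γ) (h : ∀ e ∈ p.κ, ∀ e' ∈ q.κ, Cp Γ e e') :
    ∃ u : Qc Γ, u.κ = p.κ ∪ q.κ := by
  obtain ⟨A, h1, h2⟩ := p.cs
  obtain ⟨B, h3, h4⟩ := q.cs
  refine ⟨⟨p.κ ∪ q.κ, ?_, A ∪ B, h1.union h3, ?_⟩, rfl⟩
  · rintro a (ha | ha) b (hb | hb)
    · exact p.cons a ha b hb
    · exact h a ha b hb
    · exact (h b hb a ha).symm
    · exact q.cons a ha b hb
  · rintro a (ha | ha)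
    · exact (h2 a ha).mono subset_union_left
    · exact (h4 a ha).mono subset_union_right

/-- homeomorphisms that fix the coordinates in `A` -/
def fixA (A : Set J) : Subgroup Gp where
  carrier := {π | ∀ z, Ag A (π z) z}
  one_mem' := fun _ _ _ => rfl
  mul_mem' := fun {_ σ} h1 h2 z => (h1 (σ z)).trans (h2 z)
  inv_mem' := fun {π} h z => by
    have := h (π.symm z)
    rw [π.apply_symm_apply] at this
    exact this.symm

theorem fixA_anti {A B : Set J} (h : A ⊆ B) : fixA B ≤ fixA A := fun _ h1 z => (h1 z).mono h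

/-- the filter of countable supports -/
def FC : NF Gp where
  S := {H | ∃ A : Set J, A.Countable ∧ H = fixA A}
  ne := ⟨_, ∅, countable_empty, rfl⟩
  dir := by
    rintro _ ⟨A, hA, rfl⟩ _ ⟨B, hB, rfl⟩
    exact ⟨_, ⟨A ∪ B, hA.union hB, rfl⟩, fixA_anti subset_union_left,
      fixA_anti subset_union_right⟩
  conj := by
    rintro π _ ⟨A, hA, rfl⟩
    obtain ⟨B, h1, h2⟩ := exists_dep' π.symm.continuous hA
    refine ⟨_, ⟨B, h1, rfl⟩, fun σ hσ z => ?_⟩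
    have := h2 _ _ (hσ (π z))
    rwa [π.symm_apply_apply] at this

theorem sigma_FC : Sigma FC := by
  intro H hH
  choose A h1 h2 using hH
  exact ⟨_, ⟨⋃ n, A n, countable_iUnion h1, rfl⟩, fun n => h2 n ▸ fixA_anti (subset_iUnion A n)⟩

theorem fusion_FC : Fusion FC (Cn Γ) := by
  intro S hS x₀ hx₀ p
  let T := {x : Nm (Cn Γ) // HS FC x} × Qc Γ
  let R : Option ℕ → List T → T → Prop := fun j l t => match j with
    | none => t.1.1 = x₀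
    | some n => ∀ u, l = [u] → (∃ s : P0, pt n ∈ s.r ∧ S u.1.1 t.1.1 (s, t.2)) ∨
        ∀ κ ≤ t.2, ∀ s : P0, pt n ∈ s.r → ∀ y, HS FC y → ¬ S u.1.1 y (s, κ)
  obtain ⟨e, h1, h0, h2⟩ := exists_generic (T := T) Prod.snd (⟨x₀, hx₀⟩, p.2) R (by
    rintro (_ | n) l κ
    · exact ⟨(⟨x₀, hx₀⟩, κ), le_rfl, rfl⟩
    · by_cases h : ∃ u, l = [u] ∧ ∃ κ' ≤ κ, ∃ s : P0, pt n ∈ s.r ∧ ∃ y, HS FC y ∧
          S u.1.1 y (s, κ')
      · obtain ⟨u, rfl, κ', h3, s, h4, y, h5, h6⟩ := h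
        refine ⟨(⟨y, h5⟩, κ'), h3, fun u' h7 => ?_⟩
        obtain rfl := List.singleton_inj.1 h7
        exact Or.inl ⟨s, h4, h6⟩
      · exact ⟨(⟨x₀, hx₀⟩, κ), le_rfl, fun u h3 => Or.inr fun κ' h4 s h5 y h6 h7 =>
          h ⟨u, h3, κ', h4, s, h5, y, h6, h7⟩⟩)
  obtain ⟨κ, hκ⟩ := Qc.exists_lb (fun k => (e k).2) h1
  refine ⟨(p.1, κ), ⟨le_rfl, (hκ 0).trans h0⟩, cons x₀ fun k => (e k).1.1, fun m => ?_, rfl,
    fun m y q hy hq h3 => ?_⟩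
  · cases m with
    | zero => exact hx₀
    | succ m => exact (e m).1.2
  · obtain ⟨m', hm⟩ : ∃ m', cons x₀ (fun k => (e k).1.1) m = (e m').1.1 := by
      cases m with
      | zero =>
        obtain ⟨k, hk⟩ := h2 none []
        exact ⟨k, hk.symm⟩
      | succ m => exact ⟨m, rfl⟩
    rw [hm] at h3 ⊢
    obtain ⟨n, hn⟩ := pt_mem q.1.cl.isOpen q.1.ne
    obtain ⟨k, hk⟩ := h2 (some n) [m']
    rcases hk (e m') rfl with ⟨s, h4, h5⟩ | h4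
    · obtain ⟨q', h6, h7⟩ := exists_shrink q s.cl.isOpen ⟨_, hn, h4⟩
      exact ⟨q', h6, k + 1, hS _ _ _ _ h5 ⟨h7, (h6.2.trans hq.2).trans (hκ k)⟩⟩
    · exact absurd h3 (h4 q.2 (hq.2.trans (hκ k)) q.1 hn y hy)

/-- the name given by a sequence of open sets -/
def nm (b : RN) : Nm (Cn Γ) :=
  ⟨ℕ, natN, fun k => ⟨{p | p.1.r ⊆ b.O k}, fun _ _ h h' => Subset.trans h.1 h'⟩⟩

theorem fmem_nm {b : RN} {k : ℕ} {p : Cn Γ} :
    fmem (natN k) (nm b) p ↔ Dn (fun q => q.1.r ⊆ b.O k) p := by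
  constructor
  · intro h
    refine Dn.imp' h fun q _ ⟨j, h1, h2⟩ => ?_
    obtain rfl : k = j := natN_inj h2
    exact h1
  · intro h
    exact Dn.imp' h fun q _ h1 => ⟨k, h1, feq.refl _ _⟩

/-- the empty family -/
def Qc.emp : Qc Γ := ⟨∅, fun _ h => h.elim, ∅, countable_empty, fun _ h => h.elim⟩

theorem nm_inj {b b' : RN} (h : nm (Γ := Γ) b = nm b') : b = b' := by
  have h1 := eq_of_heq (Nm.mk.inj h).2.2
  have h2 : ∀ k (s : P0), s.r ⊆ b.O k ↔ s.r ⊆ b'.O k := fun k s =>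
    SetLike.ext_iff.1 (congrFun h1 k) (s, Qc.emp)
  refine RN.ext (funext fun k => Set.ext fun z => ⟨fun hz => ?_, fun hz => ?_⟩)
  · obtain ⟨s, h3, h4⟩ := P0.exists_sub (b.op k) hz
    exact (h2 k s).1 h4 h3
  · obtain ⟨s, h3, h4⟩ := P0.exists_sub (b'.op k) hz
    exact (h2 k s).2 h4 h3

theorem act_nm (π : Gp) (b : RN) :
    act π (nm (Γ := Γ) b) = nm (b.pb π.symm π.symm.continuous) := by
  simp only [nm, act]
  congr 1
  · funext n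
    exact (chk_natN n).act π
  · funext k
    ext q
    change π ⁻¹' q.1.r ⊆ b.O k ↔ q.1.r ⊆ π.symm ⁻¹' b.O k
    exact ⟨fun h z hz => h (by simpa using hz), fun h z hz => by simpa using h hz⟩

theorem hs_nm (b : RN) : HS FC (nm (Γ := Γ) b) := by
  obtain ⟨A, h1, h2⟩ := b.cs
  refine ⟨⟨_, ⟨A, h1, rfl⟩, fun π hπ p => ?_⟩, fun n => (chk_natN n).hs _⟩
  change feq (act π (nm b)) (nm b) p
  have : b.pb π.symm π.symm.continuous = b :=
    RN.ext (funext fun k => (h2 k).pre_eq ((fixA A).inv_mem hπ))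
  rw [act_nm, this]
  exact feq.refl _ _

theorem clopen_supp {S : Set X} (h : IsClopen S) : ∃ A : Set J, A.Countable ∧ Supp A S := by
  classical
  obtain ⟨A, h1, h2⟩ := exists_dep (f := S.boolIndicator)
    ((continuous_boolIndicator_iff_isClopen S).2 h)
  refine ⟨A, h1, fun z w h3 h4 => ?_⟩
  rw [mem_iff_boolIndicator] at h4 ⊢
  rw [← h2 z w h3, h4]

theorem exists_real (x : Nm (Cn Γ)) (p : Cn Γ) : ∃ q ≤ p, ∃ b : RN, ∀ k, ∀ q' ≤ q,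
    (fmem (natN k) x q' ↔ fmem (natN k) (nm b) q') := by
  let R : ℕ × ℕ → List (Qc Γ) → Qc Γ → Prop := fun j _ t =>
    (∃ s : P0, pt j.2 ∈ s.r ∧ fmem (natN j.1) x (s, t)) ∨
      ∀ κ ≤ t, ∀ s : P0, pt j.2 ∈ s.r → ¬ fmem (natN j.1) x (s, κ)
  obtain ⟨e, h1, h0, h2⟩ := exists_generic (T := Qc Γ) id p.2 R (by
    intro j l κ
    by_cases h : ∃ κ' ≤ κ, ∃ s : P0, pt j.2 ∈ s.r ∧ fmem (natN j.1) x (s, κ')
    · obtain ⟨κ', h3, h4⟩ := h
      exact ⟨κ', h3, Or.inl h4⟩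
    · exact ⟨κ, le_rfl, Or.inr fun κ' h4 s h5 h6 => h ⟨κ', h4, s, h5, h6⟩⟩)
  obtain ⟨κ, hκ⟩ := Qc.exists_lb e h1
  have h3 : ∀ k n, ∃ S : Set X, IsClopen S ∧
      (∀ s : P0, s.r ⊆ S → fmem (natN k) x (s, κ)) ∧
      ((∃ s : P0, pt n ∈ s.r ∧ fmem (natN k) x (s, κ)) → pt n ∈ S) := fun k n => by
    by_cases h : ∃ s : P0, pt n ∈ s.r ∧ fmem (natN k) x (s, κ)
    · obtain ⟨s, h3, h4⟩ := h
      exact ⟨s.r, s.cl, fun s' h5 => h4.mono ⟨h5, le_rfl⟩, fun _ => h3⟩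
    · exact ⟨∅, isClopen_empty, fun s h5 => absurd (subset_empty_iff.1 h5) s.ne.ne_empty,
        fun h' => absurd h' h⟩
  choose S h4 h5 h6 using h3
  choose A h7 h8 using fun k n => clopen_supp (h4 k n)
  refine ⟨(p.1, κ), ⟨le_rfl, (hκ 0).trans h0⟩, ⟨fun k => ⋃ n, S k n,
    fun k => isOpen_iUnion fun n => (h4 k n).isOpen, ⋃ k, ⋃ n, A k n,
    countable_iUnion fun k => countable_iUnion (h7 k), fun k z w h hz => ?_⟩,
    fun k q hq => ⟨fun h => fmem_nm.2 fun q' hq' => ?_, fun h => fmem_of_dn fun q' hq' => ?_⟩⟩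
  · obtain ⟨n, hn⟩ := mem_iUnion.1 hz
    exact mem_iUnion.2 ⟨n, h8 k n z w (h.mono ((subset_iUnion (A k) n).trans
      (subset_iUnion (fun k => ⋃ n, A k n) k))) hn⟩
  · obtain ⟨n, hn⟩ := pt_mem q'.1.cl.isOpen q'.1.ne
    obtain ⟨m, ⟨s, h9, h10⟩ | h9⟩ := h2 (k, n) []
    · exact exists_shrink q' (isOpen_iUnion fun n => (h4 k n).isOpen)
        ⟨_, hn, mem_iUnion.2 ⟨n, h6 k n ⟨s, h9, h10.mono ⟨le_rfl, hκ m⟩⟩⟩⟩
    · exact absurd (h.mono hq') (h9 q'.2 ((hq'.2.trans hq.2).trans (hκ m)) q'.1 hn)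
  · obtain ⟨q'', h9, h10⟩ := fmem_nm.1 h q' hq'
    obtain ⟨z, hz⟩ := q''.1.ne
    obtain ⟨n, hn⟩ := mem_iUnion.1 (h10 hz)
    obtain ⟨q₃, h11, h12⟩ := exists_shrink q'' (h4 k n).isOpen ⟨z, hz, hn⟩
    exact ⟨q₃, h11.trans h9, (h5 k n q₃.1 h12).mono
      ⟨le_rfl, (h11.trans (h9.trans (hq'.trans hq))).2⟩⟩

variable (Γ) in
/-- the name of the colouring -/
def colN : Nm (Cn Γ) :=
  ⟨RN × Bool, fun i => opN (nm i.1) (natN i.2.toNat), fun i =>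
    ⟨{p | ∃ r, (i.1, r, i.2) ∈ p.2.κ ∧ p.1.r ⊆ r},
      fun _ _ h ⟨r, h1, h2⟩ => ⟨r, h.2 h1, Subset.trans h.1 h2⟩⟩⟩

theorem hs_colN : HS FC (colN Γ) := by
  have h0 : ∀ (π : Gp) (b : RN) (n : ℕ), act π (opN (nm (Γ := Γ) b) (natN n)) =
      opN (nm (b.pb π.symm π.symm.continuous)) (natN n) := fun π b n => by
    rw [act_opN, act_nm, (chk_natN n).act π]
  refine ⟨⟨_, ⟨∅, countable_empty, rfl⟩, fun π _ p => ⟨?_, ?_⟩⟩,
    fun i => hs_opN (hs_nm _) ((chk_natN _).hs _)⟩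
  · rintro ⟨b, t⟩ q - ⟨r, h1, h2⟩
    refine ⟨q, le_rfl, (b.pb π.symm π.symm.continuous, t), ⟨π.symm ⁻¹' r, h1, fun z hz => h2 ?_⟩,
      ?_⟩
    · exact (mem_inv_r π q _).2 (by simpa using hz)
    · beta_reduce
      rw [h0]
      exact feq.refl _ _
  · rintro ⟨b, t⟩ q - ⟨r, h1, h2⟩
    have h3 := pe_inv' π (b, r, t)
    refine ⟨q, le_rfl, (b.pb π π.continuous, t), ⟨π ⁻¹' r, ?_, fun z hz => h2 hz⟩, ?_⟩
    · exact (mem_inv_κ π q (pe π (b, r, t))).2 (h3.symm ▸ h1)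
    · beta_reduce
      have h4 : (b.pb π π.continuous).pb π.symm π.symm.continuous = b := congrArg Prod.fst h3
      rw [h0, h4]
      exact feq.refl _ _

theorem exists_col (hΓ : ∃ c, Prp Γ c) (b : RN) (p : Cn Γ) :
    ∃ q ≤ p, ∃ r i, (b, r, i) ∈ q.2.κ ∧ q.1.r ⊆ r := by
  obtain ⟨A, h1, h2⟩ := p.2.cs
  obtain ⟨B, h3, h4⟩ := b.cs
  obtain ⟨μ, h5, h6⟩ := exists_mx hΓ p.2.cons
    (fun e he => (h2 e he).mono (subset_union_left (t := B)))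
  obtain ⟨t, j, h7, h8, h9⟩ := h6.predense (u := b) (fun k => (h4 k).mono subset_union_right)
    p.1.cl.isOpen p.1.ne
  obtain ⟨q, h10, h11⟩ := exists_shrink (p.1, (⟨μ, h6.cons, _, h1.union h3, h6.sp⟩ : Qc Γ)) h7
    (by rwa [inter_comm])
  exact ⟨q, h10.trans ⟨le_rfl, h5⟩, t, j, h10.2 h9, h11⟩

end Pool.Agent.H154Z.Bip
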