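import Mathlib

/-!
# The Cantor cube of weight continuum: separability, supports, Kuratowski-Ulam
-/

set_option autoImplicit false

namespace Pool.Agent.H154Z.Bip

open Set Filter Topology

/-- coordinates -/
abbrev J : Type := ℕ → Bool

/-- the cube -/
abbrev X : Type := J → Bool

/-- agreement on a set of coordinates -/
def Ag (A : Set J) (z w : X) : Prop := ∀ a ∈ A, z a = w a

theorem Ag.symm {A : Set J} {z w : X} (h : Ag A z w) : Ag A w z := fun a ha => (h a ha).symm

theorem Ag.mono {A B : Set J} {z w : X} (h : Ag A z w) (hB : B ⊆ A) : Ag B z w :=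
  fun a ha => h a (hB ha)

theorem Ag.trans {A : Set J} {z w v : X} (h : Ag A z w) (h' : Ag A w v) : Ag A z v :=
  fun a ha => (h a ha).trans (h' a ha)

open Classical in
/-- `z` on `B` and `g` elsewhere -/
noncomputable def pc (B : Set J) (z g : X) : X := fun a => if a ∈ B then z a else g a

theorem pc_pos {B : Set J} (z g : X) {a : J} (h : a ∈ B) : pc B z g a = z a := if_pos h

theorem pc_neg {B : Set J} (z g : X) {a : J} (h : a ∉ B) : pc B z g a = g a := if_neg h

theorem pc_self (B : Set J) (g : X) : pc B g g = g := by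
  funext a
  simp [pc]

theorem ag_pc (B : Set J) (z g : X) : Ag B (pc B z g) z := fun _ h => pc_pos z g h

theorem pc_congr {B : Set J} {z w : X} (h : Ag B z w) (g : X) : pc B z g = pc B w g := by
  funext a
  by_cases ha : a ∈ B
  · rw [pc_pos _ _ ha, pc_pos _ _ ha, h a ha]
  · rw [pc_neg _ _ ha, pc_neg _ _ ha]

theorem continuous_pc_left (B : Set J) (g : X) : Continuous fun z => pc B z g := by
  refine continuous_pi fun a => ?_
  by_cases ha : a ∈ B
  · simp only [pc_pos _ _ ha]; exact continuous_apply a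
  · simp only [pc_neg _ _ ha]; exact continuous_const

theorem continuous_pc_right (B : Set J) (z : X) : Continuous fun g => pc B z g := by
  refine continuous_pi fun a => ?_
  by_cases ha : a ∈ B
  · simp only [pc_pos _ _ ha]; exact continuous_const
  · simp only [pc_neg _ _ ha]; exact continuous_apply a

theorem exists_cyl {U : Set X} (hU : IsOpen U) {z : X} (hz : z ∈ U) :
    ∃ F : Finset J, ∀ w, Ag F w z → w ∈ U := by
  obtain ⟨I, u, h1, h2⟩ := isOpen_pi_iff.1 hU z hz
  exact ⟨I, fun w hw => h2 fun a ha => by rw [hw a ha]; exact (h1 a ha).2⟩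

theorem isOpen_cyl {F : Set J} (hF : F.Finite) (z : X) : IsOpen {w | Ag F w z} := by
  have : {w | Ag F w z} = Set.pi F fun a => {z a} := by
    ext w; rfl
  rw [this]
  exact isOpen_set_pi hF fun a _ => isOpen_discrete _

theorem exists_pt : ∃ pt : ℕ → X, ∀ (F : Finset J) (z : X), ∃ n, Ag F (pt n) z := by
  classical
  obtain ⟨s, hs⟩ := exists_surjective_nat (Σ n : ℕ, (Fin n → Bool) → Bool)
  refine ⟨fun m a => (s m).2 fun i => a i, fun F z => ?_⟩
  have h1 : ∀ a b : J, ∃ i, a ≠ b → a i ≠ b i := fun a b => by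
    by_cases h : a = b
    · exact ⟨0, fun h' => absurd h h'⟩
    · obtain ⟨i, hi⟩ := Function.ne_iff.1 h
      exact ⟨i, fun _ => hi⟩
  choose d hd using h1
  obtain ⟨n, hn⟩ := ((F ×ˢ F).image fun p => d p.1 p.2).bddAbove
  have h2 : ∀ a ∈ F, ∀ b ∈ F, (fun i : Fin (n + 1) => a i) = (fun i : Fin (n + 1) => b i) →
      a = b := fun a ha b hb h => by
    by_contra h3
    have h4 : d a b ≤ n := hn (Finset.mem_coe.2 (Finset.mem_image.2
      ⟨(a, b), Finset.mem_product.2 ⟨ha, hb⟩, rfl⟩))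
    exact hd a b h3 (congrFun h ⟨d a b, by omega⟩)
  obtain ⟨m, hm⟩ := hs ⟨n + 1, fun t =>
    if h : ∃ a ∈ F, (fun i : Fin (n + 1) => a i) = t then z h.choose else false⟩
  refine ⟨m, fun a ha => ?_⟩
  have h3 : ∃ b ∈ F, (fun i : Fin (n + 1) => b i) = fun i : Fin (n + 1) => a i := ⟨a, ha, rfl⟩
  change (s m).2 (fun i => a i) = z a
  rw [hm]
  simp only
  rw [dif_pos h3, h2 _ h3.choose_spec.1 a ha h3.choose_spec.2]

/-- a dense sequence -/
noncomputable def pt : ℕ → X := exists_pt.choose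

theorem pt_ag (F : Finset J) (z : X) : ∃ n, Ag F (pt n) z := exists_pt.choose_spec F z

theorem pt_mem {U : Set X} (hU : IsOpen U) (h : U.Nonempty) : ∃ n, pt n ∈ U := by
  obtain ⟨z, hz⟩ := h
  obtain ⟨F, hF⟩ := exists_cyl hU hz
  obtain ⟨n, hn⟩ := pt_ag F z
  exact ⟨n, hF _ hn⟩

theorem exists_dep {f : X → Bool} (hf : Continuous f) :
    ∃ A : Set J, A.Countable ∧ ∀ z w, Ag A z w → f z = f w := by
  have h0 : ∀ z, ∃ F : Finset J, ∀ w, Ag F w z → f w = f z := fun z =>
    exists_cyl (U := f ⁻¹' {f z}) ((isOpen_discrete _).preimage hf) rfl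
  choose F hF using h0
  refine ⟨⋃ n, (F (pt n) : Set J), countable_iUnion fun n => (F _).countable_toSet,
    fun z w h => ?_⟩
  classical
  obtain ⟨n, hn⟩ := pt_ag (F z ∪ F w) z
  have h1 : f (pt n) = f z := hF z _ (hn.mono (by simp))
  have h2 : f (pc (F (pt n)) (pt n) w) = f (pt n) := hF _ _ (ag_pc _ _ _)
  have h3 : f (pc (F (pt n)) (pt n) w) = f w := hF w _ fun a ha => by
    by_cases h4 : a ∈ (F (pt n) : Set J)
    · rw [pc_pos _ _ h4, hn a (by simp [Finset.mem_coe.1 ha]), h a (mem_iUnion.2 ⟨n, h4⟩)]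
    · exact pc_neg _ _ h4
  rw [← h1, ← h2, h3]

theorem exists_dep' {ρ : X → X} (hρ : Continuous ρ) {A : Set J} (hA : A.Countable) :
    ∃ B : Set J, B.Countable ∧ ∀ z w, Ag B z w → Ag A (ρ z) (ρ w) := by
  choose D h1 h2 using fun a : J => exists_dep ((continuous_apply a).comp hρ)
  exact ⟨⋃ a ∈ A, D a, hA.biUnion fun a _ => h1 a,
    fun z w h a ha => h2 a z w (h.mono (subset_biUnion_of_mem (u := D) ha))⟩

theorem ku_open (B : Set J) {D : Set X} (ho : IsOpen D) (hd : Dense D) :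
    ∀ᶠ g in residual X, Dense {z | pc B z g ∈ D} := by
  classical
  have h0 : ∀ n, ∃ F : Finset J, pt n ∈ D → ∀ w, Ag F w (pt n) → w ∈ D := fun n => by
    by_cases h : pt n ∈ D
    · obtain ⟨F, hF⟩ := exists_cyl ho h
      exact ⟨F, fun _ => hF⟩
    · exact ⟨∅, fun h' => absurd h' h⟩
  choose F hF using h0
  let C : Set J := ⋃ n, (F n : Set J)
  have hC : C.Countable := countable_iUnion fun n => (F _).countable_toSet
  let D' : Set X := {z | ∃ n, pt n ∈ D ∧ Ag (F n) z (pt n)}
  have h1 : IsOpen D' := by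
    have : D' = ⋃ n, ⋃ _ : pt n ∈ D, {z | Ag (F n) z (pt n)} := by
      ext z; simp [D']
    rw [this]
    exact isOpen_iUnion fun n => isOpen_iUnion fun _ => isOpen_cyl (F n).finite_toSet _
  have h2 : ∀ W, IsOpen W → W.Nonempty → ∃ h ∈ W, h ∈ D' := fun W hW hne => by
    obtain ⟨n, hn⟩ := pt_mem (hW.inter ho) (hd.inter_open_nonempty W hW hne)
    exact ⟨pt n, hn.1, n, hn.2, fun _ _ => rfl⟩
  have h3 : ∀ E ∈ {E : Set J | E.Finite ∧ E ⊆ C}, ∀ᶠ g in residual X, ∀ m,
      ∃ z, Ag E z (pt m) ∧ pc B z g ∈ D' := by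
    intro E hE
    refine eventually_countable_forall.2 fun m => residual_of_dense_open ?_ ?_
    · have : {g | ∃ z, Ag E z (pt m) ∧ pc B z g ∈ D'} =
          ⋃ z, ⋃ _ : Ag E z (pt m), (fun g => pc B z g) ⁻¹' D' := by
        ext z; simp
      rw [this]
      exact isOpen_iUnion fun z => isOpen_iUnion fun _ => h1.preimage (continuous_pc_right B z)
    · refine dense_iff_inter_open.2 fun W hW ⟨g₀, hg₀⟩ => ?_
      obtain ⟨h, ⟨h4, h5⟩, h6⟩ := h2 ({h | Ag (E ∩ B) h (pt m)} ∩ (fun h => pc B g₀ h) ⁻¹' W)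
        ((isOpen_cyl (hE.1.subset inter_subset_left) _).inter
          (hW.preimage (continuous_pc_right B g₀)))
        ⟨pc B (pt m) g₀, (ag_pc _ _ _).mono inter_subset_right, by
          have : pc B g₀ (pc B (pt m) g₀) = g₀ := by
            funext a
            by_cases ha : a ∈ B
            · exact pc_pos _ _ ha
            · rw [pc_neg _ _ ha, pc_neg _ _ ha]
          change pc B g₀ (pc B (pt m) g₀) ∈ W
          rwa [this]⟩
      refine ⟨pc B g₀ h, h5, pc B h (pt m), fun a ha => ?_, ?_⟩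
      · by_cases h7 : a ∈ B
        · rw [pc_pos _ _ h7, h4 a ⟨ha, h7⟩]
        · exact pc_neg _ _ h7
      · have : pc B (pc B h (pt m)) (pc B g₀ h) = h := by
          funext a
          by_cases ha : a ∈ B
          · rw [pc_pos _ _ ha, pc_pos _ _ ha]
          · rw [pc_neg _ _ ha, pc_neg _ _ ha]
        rwa [this]
  filter_upwards [(eventually_countable_ball (countable_setOf_finite_subset hC)).2 h3] with g hg
  refine dense_iff_inter_open.2 fun W hW ⟨z₀, hz₀⟩ => ?_
  obtain ⟨E, hE⟩ := exists_cyl hW hz₀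
  obtain ⟨m, hm⟩ := pt_ag E z₀
  obtain ⟨z, h4, n, h5, h6⟩ := hg (E ∩ C) ⟨E.finite_toSet.subset inter_subset_left,
    inter_subset_right⟩ m
  refine ⟨pc E (pt m) z, hE _ ((ag_pc _ _ _).trans hm), hF n h5 _ fun a ha => ?_⟩
  rw [← h6 a ha]
  by_cases h7 : a ∈ B
  · rw [pc_pos _ _ h7, pc_pos _ _ h7]
    by_cases h8 : a ∈ (E : Set J)
    · rw [pc_pos _ _ h8, h4 a ⟨h8, mem_iUnion.2 ⟨n, ha⟩⟩]
    · exact pc_neg _ _ h8
  · rw [pc_neg _ _ h7, pc_neg _ _ h7]

theorem ku (B : Set J) {S : X → Prop} (h : ∀ᶠ z in residual X, S z) :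
    ∀ᶠ g in residual X, ∀ᶠ z in residual X, S (pc B z g) := by
  obtain ⟨T, h1, h2, h3, h4⟩ := mem_residual_iff.1 h
  filter_upwards [(eventually_countable_ball h3).2 fun D hD => ku_open B (h1 D hD) (h2 D hD)]
    with g hg
  filter_upwards [(eventually_countable_ball h3).2 fun D hD => residual_of_dense_open
    ((h1 D hD).preimage (continuous_pc_left B g)) (hg D hD)] with z hz
  exact h4 fun D hD => hz D hD

theorem exists_of_res {s : Set X} (ho : IsOpen s) (hs : s.Nonempty) {S : X → Prop}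
    (h : ∀ᶠ z in residual X, S z) : ∃ z ∈ s, S z :=
  (dense_of_mem_residual h).inter_open_nonempty s ho hs

/-- `T` is comeagre in some nonempty open set. -/
def Som (T : X → Prop) : Prop :=
  ∃ s : Set X, IsOpen s ∧ s.Nonempty ∧ ∀ᶠ z in residual X, z ∈ s → T z

theorem Som.exists {T : X → Prop} (h : Som T) : ∃ z, T z := by
  obtain ⟨s, h1, h2, h3⟩ := h
  obtain ⟨z, h4, h5⟩ := exists_of_res h1 h2 h3
  exact ⟨z, h5 h4⟩

theorem Som.imp {T T' : X → Prop} (h : Som T) (h' : ∀ᶠ z in residual X, T z → T' z) : Som T' := by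
  obtain ⟨s, h1, h2, h3⟩ := h
  refine ⟨s, h1, h2, ?_⟩
  filter_upwards [h3, h'] with z h4 h5 using fun h6 => h5 (h4 h6)

theorem Som.comp {T : X → Prop} (h : Som T) (ρ : X ≃ₜ X) : Som fun z => T (ρ z) := by
  obtain ⟨s, h1, ⟨z, h2⟩, h3⟩ := h
  exact ⟨ρ ⁻¹' s, h1.preimage ρ.continuous, ⟨ρ.symm z, by simpa using h2⟩,
    tendsto_residual_of_isOpenMap ρ.continuous ρ.isOpenMap h3⟩

theorem exists_bp {S : Set X} (hS : @MeasurableSet X (borel X) S) :
    ∃ W : ℕ → Set X, (∀ n, IsOpen (W n) ∧ Dense (W n)) ∧ ∀ z, (∀ n, z ∈ W n) → z ∈ S →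
      ∃ U, IsOpen U ∧ z ∈ U ∧ ∀ᶠ w in residual X, w ∈ U → w ∈ S := by
  letI : MeasurableSpace X := borel X
  haveI : BorelSpace X := ⟨rfl⟩
  obtain ⟨U, hU, h⟩ := hS.residualEq_isOpen
  obtain ⟨T, h1, h2, h3, h4⟩ := mem_residual_iff.1 h
  obtain ⟨W, hW⟩ := (h3.insert univ).exists_eq_range (insert_nonempty _ _)
  refine ⟨W, fun n => ?_, fun z hz hzS => ⟨U, hU, ?_, ?_⟩⟩
  · have h5 : W n ∈ insert univ T := hW ▸ mem_range_self n
    rcases h5 with h5 | h5
    · rw [h5]; exact ⟨isOpen_univ, dense_univ⟩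
    · exact ⟨h1 _ h5, h2 _ h5⟩
  · have h5 : S z = U z := h4 fun D hD => by
      obtain ⟨n, rfl⟩ : D ∈ range W := hW ▸ mem_insert_of_mem _ hD
      exact hz n
    exact h5.mp hzS
  · filter_upwards [h] with w hw using fun h5 => hw.mpr h5

theorem exists_fresh {B : Set J} (hB : B.Countable) :
    ∃ j : ℕ → J, Function.Injective j ∧ ∀ k, j k ∉ B := by
  have h1 : (Bᶜ).Infinite := fun h => by
    have h2 : (univ : Set J).Countable := by
      rw [← union_compl_self B]
      exact hB.union h.countable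
    have h3 : Countable J := countable_univ_iff.1 h2
    obtain ⟨f, hf⟩ := exists_surjective_nat J
    obtain ⟨n, hn⟩ := hf fun n => !f n n
    have := congrFun hn n
    simp at this
  exact ⟨fun k => (h1.natEmbedding _ k).1,
    Subtype.val_injective.comp (h1.natEmbedding _).injective, fun k => (h1.natEmbedding _ k).2⟩

open Classical in
/-- The shear map. -/
noncomputable def shF (D : Set J) (φ : J → J) (d : J → Bool) (w : X) : X :=
  fun a => if a ∈ D then xor (xor (w a) (w (φ a))) (d a) else w a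

theorem shF_pos {D : Set J} (φ : J → J) (d : J → Bool) (w : X) {a : J} (h : a ∈ D) :
    shF D φ d w a = xor (xor (w a) (w (φ a))) (d a) := if_pos h

theorem shF_neg {D : Set J} (φ : J → J) (d : J → Bool) (w : X) {a : J} (h : a ∉ D) :
    shF D φ d w a = w a := if_neg h

theorem shF_invol {D : Set J} {φ : J → J} (d : J → Bool) (h : ∀ a ∈ D, φ a ∉ D) (w : X) :
    shF D φ d (shF D φ d w) = w := by
  funext a
  by_cases ha : a ∈ D
  · rw [shF_pos _ _ _ ha, shF_pos _ _ _ ha, shF_neg _ _ _ (h a ha)]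
    cases w a <;> cases w (φ a) <;> cases d a <;> rfl
  · rw [shF_neg _ _ _ ha, shF_neg _ _ _ ha]

theorem continuous_shF (D : Set J) (φ : J → J) (d : J → Bool) : Continuous (shF D φ d) := by
  refine continuous_pi fun a => ?_
  by_cases ha : a ∈ D
  · simp only [shF_pos _ _ _ ha]
    have h1 : Continuous fun p : Bool × Bool => xor (xor p.1 p.2) (d a) :=
      continuous_of_discreteTopology
    have h2 : Continuous fun w : X => (w a, w (φ a)) :=
      (continuous_apply a).prodMk (continuous_apply (φ a))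
    exact h1.comp h2
  · simp only [shF_neg _ _ _ ha]; exact continuous_apply a

/-- The shear homeomorphism. -/
noncomputable def shear (D : Set J) (φ : J → J) (d : J → Bool) (h : ∀ a ∈ D, φ a ∉ D) :
    X ≃ₜ X where
  toFun := shF D φ d
  invFun := shF D φ d
  left_inv := shF_invol d h
  right_inv := shF_invol d h
  continuous_toFun := continuous_shF D φ d
  continuous_invFun := continuous_shF D φ d

end Pool.Agent.H154Z.Bip
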