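import Pool.Agent.H154Z.Bip.Poset

/-!
# Three pairwise independent copies of a condition
-/

set_option autoImplicit false

namespace Pool.Agent.H154Z.Bip

open Set Filter Topology Pool.Agent.H164Z.Bspt Pool.Agent.H982Z.Sym

variable {Γ : SimpleGraph Y}

theorem exists_common (q : Cn Γ) (ρ₁ ρ₂ : Gp)
    (h01 : ∀ e ∈ q.2.κ, ∀ e' ∈ q.2.κ, Cp Γ (pe 1 e) (pe ρ₁ e'))
    (h02 : ∀ e ∈ q.2.κ, ∀ e' ∈ q.2.κ, Cp Γ (pe 1 e) (pe ρ₂ e'))
    (h12 : ∀ e ∈ q.2.κ, ∀ e' ∈ q.2.κ, Cp Γ (pe ρ₁ e) (pe ρ₂ e'))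
    {g : X} (h0 : g ∈ q.1.r) (h1 : ρ₁ g ∈ q.1.r) (h2 : ρ₂ g ∈ q.1.r) :
    ∃ q', q' ≤ q ∧ q' ≤ ρ₁⁻¹ • q ∧ q' ≤ ρ₂⁻¹ • q := by
  obtain ⟨u, hu⟩ := Qc.exists_union q.2 (ρ₁⁻¹ • q).2 fun e he e' he' => by
    have := h01 e he _ ((mem_inv_κ ρ₁ q e').1 he')
    rwa [pe_inv] at this
  obtain ⟨v, hv⟩ := Qc.exists_union u (ρ₂⁻¹ • q).2 fun e he e' he' => by
    rw [hu] at he
    rcases he with he | he
    · have := h02 e he _ ((mem_inv_κ ρ₂ q e').1 he')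
      rwa [pe_inv] at this
    · have := h12 _ ((mem_inv_κ ρ₁ q e).1 he) _ ((mem_inv_κ ρ₂ q e').1 he')
      rwa [pe_inv, pe_inv] at this
  refine ⟨(⟨q.1.r ∩ (ρ₁⁻¹ • q).1.r ∩ (ρ₂⁻¹ • q).1.r,
    (q.1.cl.inter (ρ₁⁻¹ • q).1.cl).inter (ρ₂⁻¹ • q).1.cl, g, ⟨h0, h1⟩, h2⟩, v),
    ⟨fun z hz => hz.1.1, fun e he => ?_⟩, ⟨fun z hz => hz.1.2, fun e he => ?_⟩,
    ⟨fun z hz => hz.2, fun e he => ?_⟩⟩
  · change e ∈ v.κ
    rw [hv, hu]
    exact Or.inl (Or.inl he)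
  · change e ∈ v.κ
    rw [hv, hu]
    exact Or.inl (Or.inr he)
  · change e ∈ v.κ
    rw [hv]
    exact Or.inr he

/-- the real read off from the coordinates `j k` -/
def col (j : ℕ → J) (t : Bool) : RN :=
  ⟨fun k => {z | z (j k) = t},
    fun k => (isOpen_discrete {t}).preimage (continuous_apply (j k) : Continuous fun z : X => z (j k)),
    range j, countable_range j,
    fun k _ _ h h1 => (h _ (mem_range_self k)).symm.trans h1⟩

theorem three_of_mem {A : Set J} (hA : A.Countable) {U : Nm (Cn Γ)} (hU : Fixes (fixA A) U)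
    {μ : Set Ent} (hμ : Mx Γ A μ) {q : Cn Γ} (hq : μ ⊆ q.2.κ) {j : ℕ → J}
    (hj : Function.Injective j) (hj' : ∀ k, j k ∉ A) {t : Bool} (h : fmem (nm (col j t)) U q) :
    ∃ q' ≤ q, ∃ b₀ b₁ b₂ : RN, fmem (nm b₀) U q' ∧ fmem (nm b₁) U q' ∧ fmem (nm b₂) U q' ∧
      {k | (b₀.O k ∩ b₁.O k ∩ b₂.O k).Nonempty}.Finite := by
  classical
  obtain ⟨g, hg⟩ := q.1.ne
  obtain ⟨F, hF⟩ := exists_cyl q.1.cl.isOpen hg
  obtain ⟨A', hA', hs⟩ := q.2.cs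
  let B : Set J := A ∪ A' ∪ range j ∪ F
  have hB : B.Countable := ((hA.union hA').union (countable_range j)).union F.countable_toSet
  have hAB : A ⊆ B := fun a ha => Or.inl (Or.inl (Or.inl ha))
  have hs' : ∀ e ∈ q.2.κ, SpE B e := fun e he =>
    (hs e he).mono fun a ha => Or.inl (Or.inl (Or.inr ha))
  obtain ⟨j', h1, h2⟩ := exists_fresh hB
  obtain ⟨f, hf⟩ := countable_iff_exists_injOn.1 hB
  let φ : J → J := fun a => j' (f a)
  have hφ : ∀ a, φ a ∉ B := fun a => h2 _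
  let C : Set J := B \ A
  let D : Set J := φ '' C
  have hinj : InjOn φ C := fun a ha b hb h => hf ha.1 hb.1 (h1 h)
  let ψ : J → J := Function.invFunOn φ C
  have hψ : ∀ a ∈ C, ψ (φ a) = a := hinj.leftInvOn_invFunOn
  have hDB : ∀ a ∈ B, a ∉ D := fun a ha ⟨b, _, hb⟩ => hφ b (hb ▸ ha)
  have hD : ∀ a ∈ D, ψ a ∉ D := by
    rintro _ ⟨b, hb, rfl⟩
    rw [hψ b hb]
    exact hDB b hb.1
  have hC : ∀ a ∈ C, φ a ∉ C := fun a _ h => hφ a h.1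
  have hAC : ∀ a ∈ A, a ∉ C := fun a ha h => h.2 ha
  let d₁ : J → Bool := fun a => xor (g a) (g (φ a))
  let c : J → Bool := fun a => if a ∈ F then g a else !t
  let τ : Gp := shear D ψ (fun _ => false) hD
  let τ₀ : Gp := shear C φ (fun _ => false) hC
  let ρ₁ : Gp := shear C φ d₁ hC * τ
  let ρ₂ : Gp := shear C φ (fun a => xor (d₁ a) (c a)) hC
  have τB : ∀ w, ∀ a ∈ B, τ w a = w a := fun w a ha => shF_neg ψ (fun _ => false) w (hDB a ha)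
  have τD : ∀ w, ∀ a ∈ C, τ w (φ a) = xor (w (φ a)) (w a) := fun w a ha => by
    change shF D ψ (fun _ => false) w (φ a) = _
    rw [shF_pos _ _ _ (mem_image_of_mem φ ha), hψ a ha, Bool.xor_false]
  have τ₀A : ∀ w, ∀ a ∈ A, τ₀ w a = w a := fun w a ha =>
    shF_neg φ (fun _ => false) w (hAC a ha)
  have τ₀C : ∀ w, ∀ a ∈ C, τ₀ w a = xor (w a) (w (φ a)) := fun w a ha => by
    change shF C φ (fun _ => false) w a = _
    rw [shF_pos _ _ _ ha, Bool.xor_false]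
  have τ₀D : ∀ w, ∀ a ∈ C, τ₀ w (φ a) = w (φ a) := fun w a ha =>
    shF_neg φ (fun _ => false) w (hC a ha)
  have ρ₁A : ∀ w, ∀ a ∈ A, ρ₁ w a = w a := fun w a ha =>
    (shF_neg φ d₁ (τ w) (hAC a ha)).trans (τB w a (hAB ha))
  have ρ₁C : ∀ w, ∀ a ∈ C, ρ₁ w a = xor (w (φ a)) (d₁ a) := fun w a ha => by
    change shF C φ d₁ (τ w) a = _
    rw [shF_pos _ _ _ ha, τB w a ha.1, τD w a ha]
    cases w a <;> cases w (φ a) <;> rfl
  have ρ₂A : ∀ w, ∀ a ∈ A, ρ₂ w a = w a := fun w a ha =>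
    shF_neg φ (fun a => xor (d₁ a) (c a)) w (hAC a ha)
  have ρ₂C : ∀ w, ∀ a ∈ C, ρ₂ w a = xor (xor (w a) (w (φ a))) (xor (d₁ a) (c a)) :=
    fun w a ha => shF_pos φ (fun a => xor (d₁ a) (c a)) w ha
  have hcase : ∀ {z w : X}, (∀ a ∈ A, z a = w a) → (∀ a ∈ C, z a = w a) → Ag B z w :=
    fun h1 h2 a ha => by
      by_cases h3 : a ∈ A
      · exact h1 a h3
      · exact h2 a ⟨ha, h3⟩
  have hBD : B ∩ (A ∪ D) ⊆ A := fun a ha => ha.2.elim id fun h => absurd h (hDB a ha.1)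
  have hDB' : (A ∪ D) ∩ B ⊆ A := by rwa [inter_comm]
  obtain ⟨q', a0, a1, a2⟩ := exists_common q ρ₁ ρ₂
    (fun e he e' he' => hμ.compat (θ := 1) q.2.cons hq hs' hBD (fun _ _ _ => rfl) ρ₁A
      (fun _ _ h => h) (fun z w h => hcase
        (fun a ha => by
          change ρ₁ z a = ρ₁ w a
          rw [ρ₁A z a ha, ρ₁A w a ha, h a (Or.inl ha)])
        (fun a ha => by
          change ρ₁ z a = ρ₁ w a
          rw [ρ₁C z a ha, ρ₁C w a ha, h _ (Or.inr (mem_image_of_mem φ ha))])) he he')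
    (fun e he e' he' => hμ.compat (θ := τ) q.2.cons hq hs' hBD
      (fun z a ha => τB z a (hAB ha))
      (fun z a ha => (ρ₂A _ a ha).trans (τB z a (hAB ha)))
      (fun z w h a ha => by
        change τ z a = τ w a
        rw [τB z a ha, τB w a ha, h a ha])
      (fun z w h => hcase
        (fun a ha => by rw [ρ₂A _ a ha, ρ₂A _ a ha, τB z a (hAB ha), τB w a (hAB ha),
          h a (Or.inl ha)])
        (fun a ha => by
          rw [ρ₂C _ a ha, ρ₂C _ a ha, τB z a ha.1, τB w a ha.1, τD z a ha, τD w a ha,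
            h _ (Or.inr (mem_image_of_mem φ ha))]
          cases z a <;> cases w a <;> cases w (φ a) <;> rfl)) he he')
    (fun e he e' he' => hμ.compat (θ := τ₀) q.2.cons hq hs' hDB'
      (fun z a ha => (ρ₁A _ a ha).trans (τ₀A z a ha))
      (fun z a ha => (ρ₂A _ a ha).trans (τ₀A z a ha))
      (fun z w h => hcase
        (fun a ha => by rw [ρ₁A _ a ha, ρ₁A _ a ha, τ₀A z a ha, τ₀A w a ha, h a (Or.inl ha)])
        (fun a ha => by
          rw [ρ₁C _ a ha, ρ₁C _ a ha, τ₀D z a ha, τ₀D w a ha,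
            h _ (Or.inr (mem_image_of_mem φ ha))]))
      (fun z w h => hcase
        (fun a ha => by rw [ρ₂A _ a ha, ρ₂A _ a ha, τ₀A z a ha, τ₀A w a ha, h a (hAB ha)])
        (fun a ha => by
          rw [ρ₂C _ a ha, ρ₂C _ a ha, τ₀D z a ha, τ₀D w a ha, τ₀C z a ha, τ₀C w a ha, h a ha.1]
          cases z (φ a) <;> cases w a <;> cases w (φ a) <;> rfl)) he he')
    hg
    (hF _ ((hcase (ρ₁A g) fun a ha => by
      rw [ρ₁C g a ha]
      change xor (g (φ a)) (xor (g a) (g (φ a))) = g a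
      cases g a <;> cases g (φ a) <;> rfl).mono subset_union_right))
    (hF _ fun a ha => by
      by_cases h3 : a ∈ A
      · exact ρ₂A g a h3
      · rw [ρ₂C g a ⟨Or.inr ha, h3⟩]
        change xor (xor (g a) (g (φ a))) (xor (xor (g a) (g (φ a)))
          (if a ∈ F then g a else !t)) = g a
        rw [if_pos (Finset.mem_coe.1 ha)]
        cases g a <;> cases g (φ a) <;> rfl)
  have key : ∀ ρ : Gp, (∀ w, ∀ a ∈ A, ρ w a = w a) →
      fmem (nm ((col j t).pb ρ ρ.continuous)) U (ρ⁻¹ • q) := fun ρ hρ => by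
    have h3 := h.act ρ⁻¹
    rw [act_nm] at h3
    exact h3.right (hU ρ⁻¹ ((fixA A).inv_mem hρ) _)
  refine ⟨q', a0, _, _, _, h.mono a0, (key ρ₁ ρ₁A).mono a1, (key ρ₂ ρ₂A).mono a2,
    (F.finite_toSet.preimage hj.injOn).subset ?_⟩
  rintro k ⟨z, ⟨b0, b1⟩, b2⟩
  have hk : j k ∈ C := ⟨Or.inl (Or.inr (mem_range_self k)), hj' k⟩
  change z (j k) = t at b0
  change ρ₁ z (j k) = t at b1
  change ρ₂ z (j k) = t at b2
  rw [ρ₁C z _ hk] at b1
  rw [ρ₂C z _ hk, b0] at b2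
  by_contra h3
  have h4 : c (j k) = !t := if_neg h3
  rw [h4] at b2
  revert b1 b2
  cases z (φ (j k)) <;> cases d₁ (j k) <;> cases t <;> simp

theorem exists_three (hΓ : ∃ c, Prp Γ c) {U : Nm (Cn Γ)} (hU : HS FC U) (p : Cn Γ) :
    ∃ q ≤ p, ∃ b : ℕ → RN,
      (fmem (nm (b 0)) U q ∧ fmem (nm (b 1)) U q ∧ fmem (nm (b 2)) U q ∧
        {k | ((b 0).O k ∩ (b 1).O k ∩ (b 2).O k).Nonempty}.Finite) ∨
      ((∀ k, (b 1).O k = ((b 0).O k)ᶜ) ∧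
        ∀ q' ≤ q, ¬ fmem (nm (b 0)) U q' ∧ ¬ fmem (nm (b 1)) U q') := by
  obtain ⟨_, ⟨A₀, h1, rfl⟩, h2⟩ := hU.symm
  obtain ⟨A₁, h3, h4⟩ := p.2.cs
  obtain ⟨μ, h5, h6⟩ := exists_mx hΓ p.2.cons
    (fun e he => (h4 e he).mono (subset_union_right (s := A₀)))
  obtain ⟨j, h7, h8⟩ := exists_fresh (h1.union h3)
  let p₁ : Cn Γ := (p.1, ⟨μ, h6.cons, _, h1.union h3, h6.sp⟩)
  have h9 : p₁ ≤ p := ⟨le_rfl, h5⟩
  by_cases h : ∃ t, ∃ q ≤ p₁, fmem (nm (col j t)) U q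
  · obtain ⟨t, q, h10, h11⟩ := h
    obtain ⟨q', h12, b₀, b₁, b₂, h13⟩ := three_of_mem (h1.union h3)
      (h2.mono (fixA_anti subset_union_left)) h6 h10.2 h7 h8 h11
    exact ⟨q', h12.trans (h10.trans h9), cons b₀ (cons b₁ fun _ => b₂), Or.inl h13⟩
  · refine ⟨p₁, h9, cons (col j true) fun _ => col j false, Or.inr ⟨fun k => ?_,
      fun q' hq' => ⟨fun h10 => h ⟨true, q', hq', h10⟩, fun h10 => h ⟨false, q', hq', h10⟩⟩⟩⟩
    ext z
    change z (j k) = false ↔ ¬ z (j k) = true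
    simp

end Pool.Agent.H154Z.Bip
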